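import Mathlib
import Pool.Agent.H350R3.MG.Gen
import Pool.Agent.H350R3.MG.Quot

/-!
Generic dimensions of spaces of forms with given multiplicities at points of a space of parameters,
as functions of the multiset of the multiplicities.
-/

set_option autoImplicit false
set_option linter.unusedSectionVars false

namespace K4H38FP

open MvPolynomial H350MG Module

noncomputable section

/-- a property which holds off a hypersurface of the parameter space -/
def Gen {Γ : Type} (K : Type) [Field K] (Q : (Γ → K) → Prop) : Prop :=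
  ∃ P : MvPolynomial Γ K, P ≠ 0 ∧ ∀ θ, eval θ P ≠ 0 → Q θ

section Gen

variable {Γ K : Type} [Field K]

lemma Gen.mono {Q R : (Γ → K) → Prop} (H : Gen K Q) (h : ∀ θ, Q θ → R θ) : Gen K R := by
  obtain ⟨P, hP, h1⟩ := H
  exact ⟨P, hP, fun θ hθ => h θ (h1 θ hθ)⟩

lemma Gen.of_forall {Q : (Γ → K) → Prop} (h : ∀ θ, Q θ) : Gen K Q :=
  ⟨1, one_ne_zero, fun θ _ => h θ⟩

lemma Gen.and {Q R : (Γ → K) → Prop} (H : Gen K Q) (H' : Gen K R) :
    Gen K (fun θ => Q θ ∧ R θ) := by
  obtain ⟨P, hP, h1⟩ := H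
  obtain ⟨P', hP', h1'⟩ := H'
  refine ⟨P * P', mul_ne_zero hP hP', fun θ hθ => ?_⟩
  rw [map_mul] at hθ
  exact ⟨h1 θ (left_ne_zero_of_mul hθ), h1' θ (right_ne_zero_of_mul hθ)⟩

lemma Gen.exists [Infinite K] {Q : (Γ → K) → Prop} (H : Gen K Q) : ∃ θ, Q θ := by
  obtain ⟨P, hP, h1⟩ := H
  by_contra hcon
  push Not at hcon
  refine hP (MvPolynomial.funext fun θ => ?_)
  by_contra h2
  rw [map_zero] at h2
  exact hcon θ (h1 θ h2)

end Gen

variable {K : Type} [Field K] [CharZero K] {σ : Type} [Fintype σ] [DecidableEq σ]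

/-- forms of degree `d` with given multiplicities at given points -/
def KS (d : ℕ) (s : Multiset ((σ → K) × ℕ)) : Submodule K (MvPolynomial σ K) where
  carrier := {F | F ∈ Rj K σ d ∧ ∀ c ∈ s, (D c.1 ^ (d + 1 - c.2)) F = 0}
  add_mem' := by
    rintro F G ⟨hF, hF'⟩ ⟨hG, hG'⟩
    exact ⟨Submodule.add_mem _ hF hG, fun c hc => by rw [map_add, hF' c hc, hG' c hc, add_zero]⟩
  zero_mem' := ⟨Submodule.zero_mem _, fun c _ => map_zero _⟩
  smul_mem' := by
    rintro a F ⟨hF, hF'⟩
    exact ⟨Submodule.smul_mem _ _ hF, fun c hc => by rw [map_smul, hF' c hc, smul_zero]⟩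

lemma mem_KS {d : ℕ} {s : Multiset ((σ → K) × ℕ)} {F : MvPolynomial σ K} :
    F ∈ KS d s ↔ F ∈ Rj K σ d ∧ ∀ c ∈ s, (D c.1 ^ (d + 1 - c.2)) F = 0 := Iff.rfl

lemma KS_le (d : ℕ) (s : Multiset ((σ → K) × ℕ)) : KS d s ≤ Rj K σ d := fun _ h => h.1

instance finKS (d : ℕ) (s : Multiset ((σ → K) × ℕ)) : FiniteDimensional K (KS d s) :=
  Submodule.finiteDimensional_of_le (KS_le d s)

lemma KS_mono {d : ℕ} {s t : Multiset ((σ → K) × ℕ)} (h : ∀ c ∈ t, c ∈ s) : KS d s ≤ KS d t :=
  fun _ hF => ⟨hF.1, fun c hc => hF.2 c (h c hc)⟩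

/-- the least dimension for the points with the multiset `s` of multiplicities -/
def hv (K : Type) [Field K] [CharZero K] (σ : Type) [Fintype σ] [DecidableEq σ] (d : ℕ)
    (s : Multiset ℕ) : ℕ :=
  sInf {x | ∃ c : Multiset ((σ → K) × ℕ), c.map Prod.snd = s ∧ finrank K (KS d c) = x}

lemma hv_nonempty (d : ℕ) (s : Multiset ℕ) :
    {x | ∃ c : Multiset ((σ → K) × ℕ), c.map Prod.snd = s ∧ finrank K (KS d c) = x}.Nonempty := by
  refine ⟨_, s.map fun m => ((0 : σ → K), m), ?_, rfl⟩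
  rw [Multiset.map_map]
  simp

lemma hv_spec (d : ℕ) (s : Multiset ℕ) : ∃ c : Multiset ((σ → K) × ℕ),
    c.map Prod.snd = s ∧ finrank K (KS d c) = hv K σ d s :=
  Nat.sInf_mem (hv_nonempty d s)

lemma hv_le {d : ℕ} {s : Multiset ℕ} (c : Multiset ((σ → K) × ℕ)) (h : c.map Prod.snd = s) :
    hv K σ d s ≤ finrank K (KS d c) :=
  Nat.sInf_le ⟨c, h, rfl⟩

/-- the index set of the points -/
abbrev Ix := Option (ℕ × ℕ)

/-- the points -/
def pt (P : Ix × σ → K) (a : Ix) : σ → K := fun i => P (a, i)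

/-- the configuration -/
def cfg (P : Ix × σ → K) (k : ℕ) (A : Finset (ℕ × ℕ)) : Multiset ((σ → K) × ℕ) :=
  (pt P none, k) ::ₘ A.val.map fun a => (pt P (some a), a.1)

lemma cfg_snd (P : Ix × σ → K) (k : ℕ) (A : Finset (ℕ × ℕ)) :
    (cfg P k A).map Prod.snd = k ::ₘ A.val.map Prod.fst := by
  unfold cfg
  rw [Multiset.map_cons, Multiset.map_map]
  rfl

lemma exists_lift (A : Finset (ℕ × ℕ)) : ∀ c : Multiset ((σ → K) × ℕ),
    c.map Prod.snd = A.val.map Prod.fst →
      ∃ f : ℕ × ℕ → σ → K, (A.val.map fun a => (f a, a.1)) = c := by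
  classical
  induction A using Finset.induction_on with
  | empty =>
    intro c hc
    refine ⟨fun _ => 0, ?_⟩
    have : c = 0 := by simpa using hc
    rw [this]
    rfl
  | insert a A ha ih =>
    intro c hc
    rw [Finset.insert_val_of_notMem ha, Multiset.map_cons] at hc
    have hmem : a.1 ∈ c.map Prod.snd := by rw [hc]; exact Multiset.mem_cons_self _ _
    obtain ⟨x, hx, hxa⟩ := Multiset.mem_map.1 hmem
    obtain ⟨c', rfl⟩ := Multiset.exists_cons_of_mem hx
    rw [Multiset.map_cons, hxa, Multiset.cons_inj_right] at hc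
    obtain ⟨f, hf⟩ := ih c' hc
    refine ⟨Function.update f a x.1, ?_⟩
    rw [Finset.insert_val_of_notMem ha, Multiset.map_cons, Function.update_self]
    have h1 : (A.val.map fun b => (Function.update f a x.1 b, b.1)) =
        A.val.map fun b => (f b, b.1) := by
      refine Multiset.map_congr rfl fun b hb => ?_
      rw [Function.update_of_ne]
      rintro rfl
      exact ha hb
    rw [h1, hf, ← hxa]

lemma exists_cfg (k : ℕ) (A : Finset (ℕ × ℕ)) (c : Multiset ((σ → K) × ℕ))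
    (hc : c.map Prod.snd = k ::ₘ A.val.map Prod.fst) : ∃ P : Ix × σ → K, cfg P k A = c := by
  have hmem : k ∈ c.map Prod.snd := by rw [hc]; exact Multiset.mem_cons_self _ _
  obtain ⟨x, hx, hxa⟩ := Multiset.mem_map.1 hmem
  obtain ⟨c', rfl⟩ := Multiset.exists_cons_of_mem hx
  rw [Multiset.map_cons, hxa, Multiset.cons_inj_right] at hc
  obtain ⟨f, hf⟩ := exists_lift A c' hc
  refine ⟨fun y => y.1.elim x.1 f y.2, ?_⟩
  unfold cfg
  have h1 : (A.val.map fun a => ((pt (fun y : Ix × σ => y.1.elim x.1 f y.2) (some a) : σ → K),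
      a.1)) = A.val.map fun a => (f a, a.1) := rfl
  rw [h1, hf]
  congr 1
  rw [← hxa]
  rfl

lemma gen_le (d k : ℕ) (A : Finset (ℕ × ℕ)) (P0 : Ix × σ → K) :
    Gen K (fun P : Ix × σ → K => finrank K (KS d (cfg P k A)) ≤ finrank K (KS d (cfg P0 k A))) := by
  classical
  let ix : Option {a // a ∈ A} → Ix := Option.map Subtype.val
  let ex : Option {a // a ∈ A} → ℕ := fun a => d + 1 - a.elim k fun b => b.1.1
  let L : (Ix × σ → K) → (Rj K σ d) →ₗ[K] (Option {a // a ∈ A} → MvPolynomial σ K) := fun P =>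
    LinearMap.pi fun a => (D (fun i => P (ix a, i)) ^ ex a).domRestrict (Rj K σ d)
  have hL : ∀ (x : Rj K σ d) (ψ : (Option {a // a ∈ A} → MvPolynomial σ K) →ₗ[K] K),
      IsPoly (fun P => ψ (L P x)) := by
    intro x ψ
    have h1 : (fun P => ψ (L P x)) = fun P : Ix × σ → K =>
        ∑ a : Option {a // a ∈ A}, (ψ ∘ₗ LinearMap.single K (fun _ => MvPolynomial σ K) a)
          ((D (fun i => P (ix a, i)) ^ ex a) x) := by
      funext P
      conv_lhs => rw [← LinearMap.sum_single_apply (v := L P x)]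
      rw [map_sum]
      rfl
    rw [h1]
    exact IsPoly.sum _ fun a _ => isPoly_Dpow (ix a) (ex a) _ _
  obtain ⟨Φ, h0, hΦ⟩ := generic_ker L hL P0
  have hker : ∀ P, finrank K (LinearMap.ker (L P)) = finrank K (KS d (cfg P k A)) := by
    intro P
    have h3 : LinearMap.ker (L P) = Submodule.comap (Rj K σ d).subtype (KS d (cfg P k A)) := by
      ext F
      rw [LinearMap.mem_ker, Submodule.mem_comap, Submodule.subtype_apply, mem_KS]
      constructor
      · intro h
        refine ⟨F.2, ?_⟩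
        intro c hc
        unfold cfg at hc
        rw [Multiset.mem_cons, Multiset.mem_map] at hc
        rcases hc with rfl | ⟨a, ha, rfl⟩
        · exact congrFun h none
        · exact congrFun h (some ⟨a, ha⟩)
      · rintro ⟨_, h⟩
        funext a
        rcases a with _ | ⟨a, ha⟩
        · exact h (pt P none, k) (Multiset.mem_cons_self _ _)
        · exact h (pt P (some a), a.1) (Multiset.mem_cons_of_mem (Multiset.mem_map.2 ⟨a, ha, rfl⟩))
    rw [h3]
    exact LinearEquiv.finrank_eq (Submodule.comapSubtypeEquivOfLe (KS_le d _))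
  refine ⟨Φ, h0, fun P hP => ?_⟩
  beta_reduce
  rw [← hker P, ← hker P0]
  exact hΦ P hP

lemma gen_dim (d k : ℕ) (A : Finset (ℕ × ℕ)) :
    Gen K (fun P : Ix × σ → K =>
      finrank K (KS d (cfg P k A)) = hv K σ d (k ::ₘ A.val.map Prod.fst)) := by
  obtain ⟨c, hc, hc2⟩ := hv_spec (K := K) (σ := σ) d (k ::ₘ A.val.map Prod.fst)
  obtain ⟨P0, rfl⟩ := exists_cfg k A c hc
  refine (gen_le d k A P0).mono fun P hP => le_antisymm (hP.trans hc2.le) ?_
  exact hv_le _ (cfg_snd P k A)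

end

end K4H38FP
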