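import Mathlib
import Pool.Agent.K4H38.FP.Dim

/-!
The spaces of the leading forms of degree `k` at the point `v`, and their generic dimensions.
-/

set_option autoImplicit false
set_option linter.unusedSectionVars false

namespace K4H38FP

open MvPolynomial H350MG Module

noncomputable section

variable {K : Type} [Field K] [CharZero K] {σ : Type} [Fintype σ] [DecidableEq σ]

/-- the leading forms of degree `k` at the point `v = P none` -/
def GG (d k : ℕ) (P : Ix × σ → K) (A : Finset (ℕ × ℕ)) : Submodule K (MvPolynomial σ K) :=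
  (KS d (cfg P k A)).map (D (pt P none) ^ (d - k))

/-- the forms of degree `k` on the quotient by `v` -/
def QQ (k : ℕ) (v : σ → K) : Submodule K (MvPolynomial σ K) :=
  Rj K σ k ⊓ LinearMap.ker (D v)

lemma QQ_le (k : ℕ) (v : σ → K) : QQ k v ≤ Rj K σ k := inf_le_left

instance finQQ (k : ℕ) (v : σ → K) : FiniteDimensional K (QQ k v) :=
  Submodule.finiteDimensional_of_le (QQ_le k v)

lemma mem_cfg_none (P : Ix × σ → K) (k : ℕ) (A : Finset (ℕ × ℕ)) :
    (pt P none, k) ∈ cfg P k A := Multiset.mem_cons_self _ _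

lemma mem_cfg_some (P : Ix × σ → K) (k : ℕ) {A : Finset (ℕ × ℕ)} {a : ℕ × ℕ} (ha : a ∈ A) :
    (pt P (some a), a.1) ∈ cfg P k A :=
  Multiset.mem_cons_of_mem (Multiset.mem_map.2 ⟨a, ha, rfl⟩)

lemma mem_KS_cfg {d k : ℕ} {P : Ix × σ → K} {A : Finset (ℕ × ℕ)} {F : MvPolynomial σ K} :
    F ∈ KS d (cfg P k A) ↔ F ∈ Rj K σ d ∧ (D (pt P none) ^ (d + 1 - k)) F = 0 ∧
      ∀ a ∈ A, (D (pt P (some a)) ^ (d + 1 - a.1)) F = 0 := by
  rw [mem_KS]
  constructor
  · rintro ⟨h1, h2⟩
    exact ⟨h1, h2 _ (mem_cfg_none P k A), fun a ha => h2 _ (mem_cfg_some P k ha)⟩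
  · rintro ⟨h1, h2, h3⟩
    refine ⟨h1, ?_⟩
    intro c hc
    unfold cfg at hc
    rw [Multiset.mem_cons, Multiset.mem_map] at hc
    rcases hc with rfl | ⟨a, ha, rfl⟩
    · exact h2
    · exact h3 a ha

lemma Dpow_mono {v : σ → K} {a b : ℕ} (h : a ≤ b) {F : MvPolynomial σ K}
    (hF : (D v ^ a) F = 0) : (D v ^ b) F = 0 := by
  obtain ⟨c, rfl⟩ := Nat.exists_eq_add_of_le' h
  rw [pow_add, Module.End.mul_apply, hF, map_zero]

lemma KS_cfg_anti {d k k' : ℕ} {P : Ix × σ → K} {A A' : Finset (ℕ × ℕ)} (hk : k ≤ k')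
    (hA : A ⊆ A') : KS d (cfg P k' A') ≤ KS d (cfg P k A) := by
  intro F hF
  rw [mem_KS_cfg] at hF ⊢
  exact ⟨hF.1, Dpow_mono (by omega) hF.2.1, fun a ha => hF.2.2 a (hA ha)⟩

lemma GG_anti {d k : ℕ} {P : Ix × σ → K} {A A' : Finset (ℕ × ℕ)} (hA : A ⊆ A') :
    GG d k P A' ≤ GG d k P A :=
  Submodule.map_mono (KS_cfg_anti le_rfl hA)

lemma GG_le {d k : ℕ} (hk : k ≤ d) (P : Ix × σ → K) (A : Finset (ℕ × ℕ)) :
    GG d k P A ≤ QQ k (pt P none) := by
  rintro _ ⟨F, hF, rfl⟩
  have hF' := mem_KS_cfg.1 hF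
  refine ⟨?_, ?_⟩
  · have := Dpow_hom (v := pt P none) (d - k) hF'.1
    rwa [show d - (d - k) = k by omega] at this
  · change (D (pt P none)) ((D (pt P none) ^ (d - k)) F) = 0
    rw [← Module.End.mul_apply, ← pow_succ', show d - k + 1 = d + 1 - k by omega]
    exact hF'.2.1

instance finGG (d k : ℕ) (P : Ix × σ → K) (A : Finset (ℕ × ℕ)) :
    FiniteDimensional K (GG d k P A) := by
  unfold GG
  infer_instance

lemma GG_rank {d k : ℕ} (hk : k ≤ d) (P : Ix × σ → K) (A : Finset (ℕ × ℕ)) :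
    finrank K (KS d (cfg P k A)) = finrank K (KS d (cfg P (k + 1) A))
      + finrank K (GG d k P A) := by
  let T : KS d (cfg P k A) →ₗ[K] MvPolynomial σ K :=
    (D (pt P none) ^ (d - k)).domRestrict (KS d (cfg P k A))
  have h1 := LinearMap.finrank_range_add_finrank_ker T
  have h2 : LinearMap.range T = GG d k P A := by
    ext F
    simp only [LinearMap.mem_range, GG, Submodule.mem_map, T, LinearMap.domRestrict_apply]
    constructor
    · rintro ⟨y, rfl⟩; exact ⟨y, y.2, rfl⟩
    · rintro ⟨y, hy, rfl⟩; exact ⟨⟨y, hy⟩, rfl⟩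
  have h3 : LinearMap.ker T = Submodule.comap (KS d (cfg P k A)).subtype
      (KS d (cfg P (k + 1) A)) := by
    ext F
    rw [LinearMap.mem_ker, Submodule.mem_comap, Submodule.subtype_apply, mem_KS_cfg]
    have hF := mem_KS_cfg.1 F.2
    have he : d + 1 - (k + 1) = d - k := by omega
    rw [he]
    exact ⟨fun h => ⟨hF.1, h, hF.2.2⟩, fun h => h.2.1⟩
  rw [h2, h3, LinearEquiv.finrank_eq (Submodule.comapSubtypeEquivOfLe
    (KS_cfg_anti (Nat.le_succ k) (Finset.Subset.refl A)))] at h1
  rw [← h1, Nat.succ_eq_add_one, Nat.add_comm]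

/-- the generic number of the leading forms of degree `k` at a further point -/
def gk (K : Type) [Field K] [CharZero K] (σ : Type) [Fintype σ] [DecidableEq σ] (d k : ℕ)
    (s : Multiset ℕ) : ℕ :=
  hv K σ d (k ::ₘ s) - hv K σ d ((k + 1) ::ₘ s)

/-- a finite set of indices with given multiplicities -/
lemma exists_fin (s : Multiset ℕ) : ∃ A : Finset (ℕ × ℕ), A.val.map Prod.fst = s :=
  ⟨s.toEnumFinset, Multiset.map_toEnumFinset_fst s⟩

variable [Nonempty σ] in
lemma hv_gk {d k : ℕ} (hk : k ≤ d) (s : Multiset ℕ) :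
    hv K σ d (k ::ₘ s) = hv K σ d ((k + 1) ::ₘ s) + gk K σ d k s := by
  obtain ⟨A, rfl⟩ := exists_fin s
  obtain ⟨P, hP1, hP2⟩ := ((gen_dim (K := K) (σ := σ) d k A).and (gen_dim d (k + 1) A)).exists
  have h := GG_rank hk P A
  unfold gk
  rw [hP1, hP2] at h
  omega

lemma gen_GG {d k : ℕ} (hk : k ≤ d) (A : Finset (ℕ × ℕ)) :
    Gen K (fun P : Ix × σ → K => finrank K (GG d k P A) = gk K σ d k (A.val.map Prod.fst)) := by
  refine ((gen_dim (K := K) (σ := σ) d k A).and (gen_dim d (k + 1) A)).mono fun P hP => ?_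
  have h := GG_rank hk P A
  unfold gk
  rw [hP.1, hP.2] at h
  omega

/-- replacing one point -/
lemma gen_swap {d k : ℕ} (hk : k ≤ d) {A : Finset (ℕ × ℕ)} {a b : ℕ × ℕ} (ha : a ∈ A) (hb : b ∉ A)
    (hab : b.1 = a.1)
    (h : gk K σ d k (a.1 ::ₘ A.val.map Prod.fst) = gk K σ d k (A.val.map Prod.fst)) :
    Gen K (fun P : Ix × σ → K => GG d k P A = GG d k P (insert b (A.erase a))) := by
  classical
  have hb' : b ∉ A.erase a := fun h => hb (Finset.mem_of_mem_erase h)
  have hne : a ≠ b := by rintro rfl; exact hb ha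
  have ha' : a ∉ insert b (A.erase a) := by
    rw [Finset.mem_insert]
    rintro (h1 | h1)
    · exact hne h1
    · exact Finset.notMem_erase a A h1
  have e1 : (insert b (A.erase a)).val.map Prod.fst = A.val.map Prod.fst := by
    rw [Finset.insert_val_of_notMem hb', Multiset.map_cons, hab, ← Multiset.map_cons,
      ← Finset.insert_val_of_notMem (Finset.notMem_erase a A), Finset.insert_erase ha]
  have e2 : (insert b A).val.map Prod.fst = a.1 ::ₘ A.val.map Prod.fst := by
    rw [Finset.insert_val_of_notMem hb, Multiset.map_cons, hab]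
  have e3 : insert a (insert b (A.erase a)) = insert b A := by
    rw [Finset.insert_comm, Finset.insert_erase ha]
  refine (((gen_GG (K := K) (σ := σ) hk A).and (gen_GG hk (insert b (A.erase a)))).and
    (gen_GG hk (insert b A))).mono ?_
  rintro P ⟨⟨h1, h2⟩, h3⟩
  rw [e1] at h2
  rw [e2] at h3
  have i1 : GG d k P (insert b A) = GG d k P A :=
    Submodule.eq_of_le_of_finrank_eq (GG_anti (Finset.subset_insert b A)) (by rw [h1, h3, h])
  have i2 : GG d k P (insert b A) = GG d k P (insert b (A.erase a)) := by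
    refine Submodule.eq_of_le_of_finrank_eq (GG_anti ?_) (by rw [h2, h3, h])
    rw [← e3]
    exact Finset.subset_insert a _
  rw [← i1, i2]

/-- moving all the points -/
lemma gen_move {d k : ℕ} (hk : k ≤ d) (X : Finset (ℕ × ℕ)) : ∀ (n : ℕ) (A : Finset (ℕ × ℕ)),
    (A ∩ X).card = n →
    (∀ a ∈ A, gk K σ d k (a.1 ::ₘ A.val.map Prod.fst) = gk K σ d k (A.val.map Prod.fst)) →
    ∃ B : Finset (ℕ × ℕ), B.val.map Prod.fst = A.val.map Prod.fst ∧ Disjoint B X ∧
      Gen K (fun P : Ix × σ → K => GG d k P A = GG d k P B) := by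
  classical
  intro n
  induction n with
  | zero =>
    intro A hA _
    refine ⟨A, rfl, ?_, Gen.of_forall fun _ => rfl⟩
    rw [Finset.card_eq_zero] at hA
    exact Finset.disjoint_iff_inter_eq_empty.2 hA
  | succ n ih =>
    intro A hA h
    obtain ⟨a, haX⟩ : (A ∩ X).Nonempty := by
      rw [← Finset.card_pos]; omega
    have ha := (Finset.mem_inter.1 haX).1
    have hX := (Finset.mem_inter.1 haX).2
    -- a fresh index
    obtain ⟨j, hj⟩ : ∃ j : ℕ, (a.1, j) ∉ A ∪ X := by
      by_contra hcon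
      push Not at hcon
      have hinj : Function.Injective (fun j : ℕ => (a.1, j)) := fun x y hxy => by
        simpa using hxy
      exact (Set.infinite_of_injective_forall_mem hinj hcon) (A ∪ X).finite_toSet
    rw [Finset.mem_union, not_or] at hj
    have hb' : (a.1, j) ∉ A.erase a := fun h => hj.1 (Finset.mem_of_mem_erase h)
    have e1 : (insert (a.1, j) (A.erase a)).val.map Prod.fst = A.val.map Prod.fst := by
      rw [Finset.insert_val_of_notMem hb', Multiset.map_cons]
      change a.1 ::ₘ _ = _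
      rw [← Multiset.map_cons, ← Finset.insert_val_of_notMem (Finset.notMem_erase a A),
        Finset.insert_erase ha]
    have hcard : (insert (a.1, j) (A.erase a) ∩ X).card = n := by
      have : insert (a.1, j) (A.erase a) ∩ X = (A ∩ X).erase a := by
        rw [Finset.insert_inter_of_notMem hj.2, Finset.erase_inter]
      rw [this, Finset.card_erase_of_mem haX, hA]
      rfl
    obtain ⟨B, hB1, hB2, hB3⟩ := ih (insert (a.1, j) (A.erase a)) hcard (by
      intro c hc
      rw [e1]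
      rw [Finset.mem_insert] at hc
      rcases hc with rfl | hc
      · exact h a ha
      · exact h c (Finset.mem_of_mem_erase hc))
    refine ⟨B, by rw [hB1, e1], hB2, ?_⟩
    exact ((gen_swap hk ha hj.1 rfl (h a ha)).and hB3).mono fun P hP => hP.1.trans hP.2

end

end K4H38FP
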