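import Mathlib
import Pool.Agent.K4H38.FP.GSp

/-!
Powers of linear forms span the forms (characteristic 0), also on a quotient by a vector.
-/

set_option autoImplicit false
set_option linter.unusedSectionVars false

namespace K4H38FP

open MvPolynomial H350MG Module

noncomputable section

variable {K : Type} [Field K] [CharZero K] {σ : Type} [Fintype σ] [DecidableEq σ]

lemma lin_pow_expand (w : σ → K) (k : ℕ) : lin w ^ k =
    ∑ κ ∈ (Finset.univ : Finset σ).piAntidiag k,
      ((Nat.multinomial Finset.univ κ : K) * ∏ i, w i ^ κ i) •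
        monomial (Finsupp.equivFunOnFinite.symm κ) (1 : K) := by
  unfold lin
  rw [Finset.sum_pow_eq_sum_piAntidiag]
  refine Finset.sum_congr rfl fun κ _ => ?_
  have h1 : ∏ i, (w i • X i : MvPolynomial σ K) ^ κ i =
      (∏ i, w i ^ κ i) • monomial (Finsupp.equivFunOnFinite.symm κ) (1 : K) := by
    have : ∀ i, (w i • X i : MvPolynomial σ K) ^ κ i = C (w i ^ κ i) * X i ^ κ i := by
      intro i
      rw [smul_eq_C_mul, mul_pow, C_pow]
    simp only [this]
    rw [Finset.prod_mul_distrib, ← map_prod, smul_eq_C_mul, monomial_eq, C_1, one_mul,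
      Finsupp.prod_fintype _ _ (fun i => pow_zero _)]
    rfl
  rw [h1, mul_smul, smul_eq_C_mul, smul_eq_C_mul]
  have h2 : ((Nat.multinomial Finset.univ κ : ℕ) : MvPolynomial σ K) =
      C ((Nat.multinomial Finset.univ κ : ℕ) : K) := by
    rw [map_natCast]
  rw [h2]

/-- a linear functional which vanishes on the powers of the linear forms is zero -/
lemma funct_zero {k : ℕ} (μ : MvPolynomial σ K →ₗ[K] K) (h : ∀ w : σ → K, μ (lin w ^ k) = 0)
    {F : MvPolynomial σ K} (hF : F ∈ Rj K σ k) : μ F = 0 := by
  classical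
  let p : MvPolynomial σ K := ∑ κ ∈ (Finset.univ : Finset σ).piAntidiag k,
    monomial (Finsupp.equivFunOnFinite.symm κ) ((Nat.multinomial Finset.univ κ : K) *
      μ (monomial (Finsupp.equivFunOnFinite.symm κ) 1))
  have hp : p = 0 := by
    refine MvPolynomial.funext fun w => ?_
    rw [map_zero, ← h w, lin_pow_expand]
    simp only [p, map_sum, map_smul, smul_eq_mul]
    refine Finset.sum_congr rfl fun κ _ => ?_
    rw [eval_monomial, Finsupp.prod_fintype _ _ (fun i => pow_zero _)]
    have : ∀ i, (Finsupp.equivFunOnFinite.symm κ : σ →₀ ℕ) i = κ i := fun i => rfl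
    simp only [this]
    ring
  have hmon : ∀ α : σ →₀ ℕ, α.degree = k → μ (monomial α 1) = 0 := by
    intro α hα
    have h1 : coeff α p = 0 := by rw [hp, coeff_zero]
    have hmem : (fun i => α i) ∈ (Finset.univ : Finset σ).piAntidiag k := by
      rw [Finset.mem_piAntidiag]
      refine ⟨?_, fun i _ => Finset.mem_univ i⟩
      rw [← hα, Finsupp.degree_eq_sum]
    have h2 : coeff α p = (Nat.multinomial Finset.univ (fun i => α i) : K) *
        μ (monomial α 1) := by
      simp only [p, coeff_sum]
      rw [Finset.sum_eq_single (fun i => α i)]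
      · have : (Finsupp.equivFunOnFinite.symm fun i => α i) = α := by
          ext i; rfl
        rw [this, coeff_monomial, if_pos rfl]
      · intro κ _ hκ
        rw [coeff_monomial, if_neg]
        rintro rfl
        exact hκ rfl
      · intro h'; exact absurd hmem h'
    rw [h1] at h2
    rcases mul_eq_zero.1 h2.symm with h3 | h3
    · exfalso
      have : Nat.multinomial Finset.univ (fun i => α i) = 0 := by exact_mod_cast h3
      exact (Nat.multinomial_pos _ _).ne' this
    · exact h3
  rw [F.as_sum, map_sum]
  refine Finset.sum_eq_zero fun α hα => ?_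
  have h1 : monomial α (coeff α F) = coeff α F • monomial α (1 : K) := by
    rw [smul_monomial, smul_eq_mul, mul_one]
  rw [h1, map_smul, hmon α, smul_zero]
  by_contra hdeg
  have hF' : F.IsHomogeneous k := hF
  exact mem_support_iff.1 hα (hF'.coeff_eq_zero hdeg)

/-- translation along `v` -/
def tr (v : σ → K) : MvPolynomial σ K →ₐ[K] Polynomial (MvPolynomial σ K) :=
  aeval fun i => Polynomial.C (X i) + Polynomial.C (C (v i)) * Polynomial.X

lemma tr_X (v : σ → K) (i : σ) :
    tr v (X i) = Polynomial.C (X i) + Polynomial.C (C (v i)) * Polynomial.X := by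
  simp [tr]

lemma tr_C (v : σ → K) (a : K) : tr v (C a) = Polynomial.C (C a) := by
  rw [← MvPolynomial.algebraMap_eq, AlgHom.commutes]
  rfl

lemma tr_deriv (v : σ → K) (F : MvPolynomial σ K) :
    Polynomial.derivative (tr v F) = tr v (D v F) := by
  induction F using MvPolynomial.induction_on with
  | C a =>
    have : D v (C a) = 0 := by rw [D_apply]; simp
    rw [this, map_zero, tr_C, Polynomial.derivative_C]
  | add p q hp hq => simp only [map_add, hp, hq]
  | mul_X p i hp =>
    rw [D_mul, map_mul, Polynomial.derivative_mul, hp, map_add, map_mul, map_mul]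
    congr 1
    have h2 : D v (X i) = C (v i) := by
      rw [D_apply, Finset.sum_eq_single i]
      · rw [pderiv_X_self, smul_eq_C_mul, mul_one]
      · intro j _ hj; rw [pderiv_X_of_ne hj.symm, smul_zero]
      · simp
    rw [h2, tr_C, tr_X]
    simp

lemma tr_eval (v : σ → K) (F G : MvPolynomial σ K) :
    (tr v F).eval G = aeval (fun i => X i + C (v i) * G) F := by
  induction F using MvPolynomial.induction_on with
  | C a => rw [tr_C, Polynomial.eval_C, ← MvPolynomial.algebraMap_eq, AlgHom.commutes]
  | add p q hp hq => rw [map_add, Polynomial.eval_add, hp, hq, map_add]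
  | mul_X p i hp =>
    rw [map_mul, Polynomial.eval_mul, hp, map_mul, tr_X, aeval_X]
    simp

lemma tr_inv {v : σ → K} {F : MvPolynomial σ K} (h : D v F = 0) (G : MvPolynomial σ K) :
    aeval (fun i => X i + C (v i) * G) F = F := by
  have h1 : Polynomial.derivative (tr v F) = 0 := by rw [tr_deriv, h, map_zero]
  have h2 := Polynomial.eq_C_of_derivative_eq_zero h1
  have h3 : (tr v F).eval 0 = F := by
    rw [tr_eval]
    simp
  rw [← tr_eval, h2, Polynomial.eval_C]
  rw [h2, Polynomial.eval_C] at h3
  exact h3

/-- a linear functional which vanishes on the powers of the linear forms on the quotient by `v` -/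
lemma funct_zero_QQ {k : ℕ} {v : σ → K} (hv : v ≠ 0) (μ : MvPolynomial σ K →ₗ[K] K)
    (h : ∀ w : σ → K, ∑ i, w i * v i = 0 → μ (lin w ^ k) = 0)
    {F : MvPolynomial σ K} (hF : F ∈ QQ k v) : μ F = 0 := by
  obtain ⟨i0, hi0⟩ : ∃ i, v i ≠ 0 := by
    by_contra hcon
    push Not at hcon
    exact hv (funext hcon)
  let π : MvPolynomial σ K →ₐ[K] MvPolynomial σ K :=
    aeval (fun i => X i + C (v i) * (C (-(v i0)⁻¹) * X i0))
  have h1 : π F = F := tr_inv hF.2 _
  have h2 : (μ ∘ₗ π.toLinearMap) F = 0 := by
    refine funct_zero _ (fun w => ?_) hF.1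
    change μ (π (lin w ^ k)) = 0
    rw [map_pow]
    have h3 : π (lin w) = lin (w - Pi.single i0 ((∑ i, w i * v i) * (v i0)⁻¹)) := by
      unfold lin
      rw [map_sum]
      simp only [map_smul, π, aeval_X, smul_add, Pi.sub_apply, sub_smul, Finset.sum_add_distrib,
        Finset.sum_sub_distrib]
      rw [sub_eq_add_neg]
      congr 1
      rw [Finset.sum_eq_single i0 (f := fun i => (Pi.single i0 ((∑ i, w i * v i) * (v i0)⁻¹) : σ → K) i • (X i : MvPolynomial σ K))]
      · rw [Pi.single_eq_same, Finset.sum_mul, Finset.sum_smul, ← Finset.sum_neg_distrib]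
        refine Finset.sum_congr rfl fun i _ => ?_
        rw [smul_eq_C_mul, smul_eq_C_mul, C_neg, C_mul, C_mul]
        ring
      · intro j _ hj
        rw [Pi.single_eq_of_ne hj, zero_smul]
      · intro h'; exact absurd (Finset.mem_univ _) h'
    rw [h3]
    refine h _ ?_
    simp only [Pi.sub_apply, sub_mul, Finset.sum_sub_distrib]
    rw [Finset.sum_eq_single i0 (f := fun i => (Pi.single i0 ((∑ i, w i * v i) * (v i0)⁻¹) : σ → K) i * v i)]
    · rw [Pi.single_eq_same]
      field_simp
      ring
    · intro j _ hj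
      rw [Pi.single_eq_of_ne hj, zero_mul]
    · intro h'; exact absurd (Finset.mem_univ _) h'
  rw [← h1]
  exact h2

end

end K4H38FP
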