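import Mathlib
import Pool.Agent.K4H38.FP.Lin

/-!
A family of linear substitutions, and the dichotomy for leading forms which do not depend on the
points.
-/

set_option autoImplicit false
set_option linter.unusedSectionVars false

namespace K4H38FP

open MvPolynomial H350MG Module

noncomputable section

variable {K : Type} [Field K] [CharZero K] {σ : Type} [Fintype σ] [DecidableEq σ]

/-- the value of the linear form `w` at `u` -/
def dt (w u : σ → K) : K := ∑ i, w i * u i

/-- the substitution `x ↦ (1 - t) x + t ⟨w, x⟩ a` -/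
def sb (t : K) (a w : σ → K) : MvPolynomial σ K →ₐ[K] MvPolynomial σ K :=
  aeval fun i => C (1 - t) * X i + C (t * a i) * lin w

/-- the linear map -/
def mv (t : K) (a w u : σ → K) : σ → K := fun i => (1 - t) * u i + t * a i * dt w u

/-- the inverse linear map up to a factor -/
def wv (t : K) (a w u : σ → K) : σ → K := fun i =>
  ((1 - t) + t * dt w a) * u i - t * dt w u * a i

lemma dt_comb (w u a : σ → K) (c e : K) :
    dt w (fun i => c * u i - e * a i) = c * dt w u - e * dt w a := by
  unfold dt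
  simp only [mul_sub, Finset.sum_sub_distrib, Finset.mul_sum]
  congr 1
  · refine Finset.sum_congr rfl fun i _ => ?_
    ring
  · refine Finset.sum_congr rfl fun i _ => ?_
    ring

lemma mv_wv (t : K) (a w u : σ → K) :
    mv t a w (wv t a w u) = ((1 - t) * ((1 - t) + t * dt w a)) • u := by
  have h : dt w (wv t a w u) = ((1 - t) + t * dt w a) * dt w u - t * dt w u * dt w a :=
    dt_comb _ _ _ _ _
  funext i
  simp only [mv, h, wv, Pi.smul_apply, smul_eq_mul]
  ring

lemma mv_of_dt {t : K} {a w u : σ → K} (h : dt w u = 0) : mv t a w u = (1 - t) • u := by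
  funext i
  simp [mv, h]

lemma D_lin (u w : σ → K) : D u (lin w) = C (dt w u) := by
  unfold lin
  rw [map_sum]
  unfold dt
  rw [map_sum]
  refine Finset.sum_congr rfl fun i _ => ?_
  rw [map_smul]
  have h2 : D u (X i) = C (u i) := by
    rw [D_apply, Finset.sum_eq_single i]
    · rw [pderiv_X_self, smul_eq_C_mul, mul_one]
    · intro j _ hj; rw [pderiv_X_of_ne hj.symm, smul_zero]
    · simp
  rw [h2, smul_eq_C_mul, C_mul]

lemma D_X (u : σ → K) (i : σ) : D u (X i) = C (u i) := by
  rw [D_apply, Finset.sum_eq_single i]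
  · rw [pderiv_X_self, smul_eq_C_mul, mul_one]
  · intro j _ hj; rw [pderiv_X_of_ne hj.symm, smul_zero]
  · simp

lemma D_C (u : σ → K) (c : K) : D u (C c) = 0 := by rw [D_apply]; simp

lemma D_C_mul (u : σ → K) (c : K) (F : MvPolynomial σ K) : D u (C c * F) = C c * D u F := by
  rw [D_mul, D_C, zero_mul, zero_add]

lemma D_sb (t : K) (a w u : σ → K) (F : MvPolynomial σ K) :
    D u (sb t a w F) = sb t a w (D (mv t a w u) F) := by
  induction F using MvPolynomial.induction_on with
  | C c =>
    rw [D_C, map_zero, ← MvPolynomial.algebraMap_eq, AlgHom.commutes, MvPolynomial.algebraMap_eq,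
      D_C]
  | add p q hp hq => simp only [map_add, hp, hq]
  | mul_X p i hp =>
    rw [map_mul, D_mul, hp, D_mul, map_add, map_mul, map_mul]
    congr 1
    rw [D_X, ← MvPolynomial.algebraMap_eq, AlgHom.commutes, MvPolynomial.algebraMap_eq]
    have h1 : sb t a w (X i) = C (1 - t) * X i + C (t * a i) * lin w := by simp [sb]
    rw [h1, map_add, D_C_mul, D_C_mul, D_X, D_lin, ← C_mul, ← C_mul, ← C_add]
    rfl

lemma Dpow_sb (t : K) (a w u : σ → K) (e : ℕ) : ∀ F : MvPolynomial σ K,
    (D u ^ e) (sb t a w F) = sb t a w ((D (mv t a w u) ^ e) F) := by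
  induction e with
  | zero => intro F; simp
  | succ e ih =>
    intro F
    rw [pow_succ, Module.End.mul_apply, D_sb, ih, ← Module.End.mul_apply, ← pow_succ]

lemma D_smul' (c : K) (u : σ → K) : D (c • u) = c • D u := by
  refine LinearMap.ext fun F => ?_
  rw [LinearMap.smul_apply, D_apply, D_apply, Finset.smul_sum]
  refine Finset.sum_congr rfl fun i _ => ?_
  rw [Pi.smul_apply, smul_eq_mul, mul_smul]

lemma Dpow_smul (c : K) (u : σ → K) (e : ℕ) (F : MvPolynomial σ K) :
    (D (c • u) ^ e) F = c ^ e • (D u ^ e) F := by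
  rw [D_smul', smul_pow, LinearMap.smul_apply]

lemma sb_hom {t : K} {a w : σ → K} {d : ℕ} {F : MvPolynomial σ K} (hF : F ∈ Rj K σ d) :
    sb t a w F ∈ Rj K σ d := by
  have hF' : F.IsHomogeneous d := hF
  have h := hF'.aeval (S := K) (fun i => C (1 - t) * X i + C (t * a i) * lin w) (n := 1) (by
    intro i
    refine IsHomogeneous.add ?_ ?_
    · have := (isHomogeneous_C σ (1 - t)).mul (isHomogeneous_X K i)
      rwa [zero_add] at this
    · have := (isHomogeneous_C σ (t * a i)).mul (lin_hom w)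
      rwa [zero_add] at this)
  rw [one_mul] at h
  exact h

lemma sb_one {a w : σ → K} {d : ℕ} {F : MvPolynomial σ K} (hF : F ∈ Rj K σ d) :
    sb 1 a w F = eval a F • lin w ^ d := by
  classical
  have hF' : F.IsHomogeneous d := hF
  have h1 : sb 1 a w F = aeval (fun i => C (a i) * lin w) F := by
    unfold sb
    congr 2
    funext i
    simp
  rw [h1, aeval_def, eval₂_eq', eval_eq', Finset.sum_smul]
  refine Finset.sum_congr rfl fun m hm => ?_
  have h2 : ∏ i, (C (a i) * lin w : MvPolynomial σ K) ^ m i = C (∏ i, a i ^ m i) * lin w ^ d := by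
    simp only [mul_pow]
    rw [Finset.prod_mul_distrib, Finset.prod_pow_eq_pow_sum, map_prod]
    congr 1
    · refine Finset.prod_congr rfl fun i _ => ?_
      rw [C_pow]
    · congr 1
      rw [← Finsupp.degree_eq_sum]
      by_contra hdeg
      exact mem_support_iff.1 hm (hF'.coeff_eq_zero hdeg)
  rw [h2, MvPolynomial.algebraMap_eq, ← mul_assoc, ← C_mul, smul_eq_C_mul]

/-- functions of one variable given by polynomials -/
def Pl (f : K → K) : Prop := ∃ p : Polynomial K, ∀ t, p.eval t = f t

lemma pl_sb (μ : MvPolynomial σ K →ₗ[K] K) (a w : σ → K) (F : MvPolynomial σ K) :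
    Pl (fun t => μ (sb t a w F)) := by
  let Φ : MvPolynomial σ K →ₐ[K] Polynomial (MvPolynomial σ K) :=
    aeval fun i => (1 - Polynomial.X) * Polynomial.C (X i) +
      Polynomial.X * Polynomial.C (C (a i) * lin w)
  have hΦ : ∀ (t : K) (G : MvPolynomial σ K), (Φ G).eval (C t) = sb t a w G := by
    intro t G
    induction G using MvPolynomial.induction_on with
    | C c =>
      have e1 : Φ (C c) = Polynomial.C (C c) := by
        rw [← MvPolynomial.algebraMap_eq, AlgHom.commutes]
        rfl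
      rw [e1, Polynomial.eval_C, ← MvPolynomial.algebraMap_eq, AlgHom.commutes]
    | add p q hp hq => rw [map_add, Polynomial.eval_add, hp, hq, map_add]
    | mul_X p i hp =>
      have e1 : Φ (X i) = (1 - Polynomial.X) * Polynomial.C (X i) +
        Polynomial.X * Polynomial.C (C (a i) * lin w) := by simp [Φ]
      have e2 : sb t a w (X i) = C (1 - t) * X i + C (t * a i) * lin w := by simp [sb]
      rw [map_mul, Polynomial.eval_mul, hp, map_mul, e1, e2]
      congr 1
      simp only [Polynomial.eval_add, Polynomial.eval_mul, Polynomial.eval_sub,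
        Polynomial.eval_one, Polynomial.eval_X, Polynomial.eval_C, C_sub, C_1, C_mul]
      ring
  refine ⟨∑ j ∈ Finset.range ((Φ F).natDegree + 1), Polynomial.monomial j (μ ((Φ F).coeff j)),
    fun t => ?_⟩
  beta_reduce
  rw [← hΦ, Polynomial.eval_eq_sum_range (p := Φ F), Polynomial.eval_finsetSum, map_sum]
  refine Finset.sum_congr rfl fun j _ => ?_
  rw [Polynomial.eval_monomial, ← C_pow, mul_comm ((Φ F).coeff j), ← smul_eq_C_mul, map_smul,
    smul_eq_mul, mul_comm]

/-- the points moved along the family -/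
def mp (P : Ix × σ → K) (A : Finset (ℕ × ℕ)) (t : K) (a w : σ → K) : Ix × σ → K := fun y =>
  if y.1 ∈ A.image some then wv t a w (pt P y.1) y.2 else P y

lemma pt_mp_none (P : Ix × σ → K) (A : Finset (ℕ × ℕ)) (t : K) (a w : σ → K) :
    pt (mp P A t a w) none = pt P none := by
  funext i
  unfold pt mp
  rw [if_neg]
  simp

lemma pt_mp_some {A : Finset (ℕ × ℕ)} {c : ℕ × ℕ} (hc : c ∈ A) (P : Ix × σ → K) (t : K)
    (a w : σ → K) : pt (mp P A t a w) (some c) = wv t a w (pt P (some c)) := by
  funext i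
  unfold pt mp
  rw [if_pos]
  · rfl
  · simpa using hc

lemma pt_mp_some_ne {A : Finset (ℕ × ℕ)} {c : ℕ × ℕ} (hc : c ∉ A) (P : Ix × σ → K) (t : K)
    (a w : σ → K) : pt (mp P A t a w) (some c) = pt P (some c) := by
  funext i
  unfold pt mp
  rw [if_neg]
  simpa using hc

lemma mp_zero (P : Ix × σ → K) (A : Finset (ℕ × ℕ)) (a w : σ → K) : mp P A 0 a w = P := by
  funext y
  unfold mp
  split_ifs with h
  · simp only [wv, sub_zero, zero_mul, add_zero, one_mul]
    rfl
  · rfl

lemma pl_mp (Ψ : MvPolynomial (Ix × σ) K) (P : Ix × σ → K) (A : Finset (ℕ × ℕ)) (a w : σ → K) :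
    Pl (fun t => eval (mp P A t a w) Ψ) := by
  let cp : Ix × σ → Polynomial K := fun y => if y.1 ∈ A.image some then
      ((1 - Polynomial.X) + Polynomial.X * Polynomial.C (dt w a)) * Polynomial.C (pt P y.1 y.2)
        - Polynomial.X * Polynomial.C (dt w (pt P y.1)) * Polynomial.C (a y.2)
    else Polynomial.C (P y)
  have hcp : ∀ t y, (cp y).eval t = mp P A t a w y := by
    intro t y
    simp only [cp, mp]
    split_ifs with h
    · simp [wv]
      ring
    · simp
  refine ⟨aeval cp Ψ, fun t => ?_⟩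
  beta_reduce
  induction Ψ using MvPolynomial.induction_on with
  | C c => simp
  | add p q hp hq => rw [map_add, Polynomial.eval_add, hp, hq, map_add]
  | mul_X p y hp => rw [map_mul, Polynomial.eval_mul, hp, map_mul, aeval_X, eval_X, hcp]

lemma sb_mem {d k : ℕ} {P : Ix × σ → K} {A : Finset (ℕ × ℕ)} {t : K} {a w : σ → K}
    (hw : dt w (pt P none) = 0) {F : MvPolynomial σ K} (hF : F ∈ KS d (cfg P k A)) :
    sb t a w F ∈ KS d (cfg (mp P A t a w) k A) := by
  rw [mem_KS_cfg] at hF ⊢
  refine ⟨sb_hom hF.1, ?_, ?_⟩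
  · rw [pt_mp_none, Dpow_sb, mv_of_dt hw, Dpow_smul, hF.2.1, smul_zero, map_zero]
  · intro c hc
    rw [pt_mp_some hc, Dpow_sb, mv_wv, Dpow_smul, hF.2.2 c hc, smul_zero, map_zero]

lemma GG_mp {d k : ℕ} {P : Ix × σ → K} {A B : Finset (ℕ × ℕ)} (h : Disjoint B A) (t : K)
    (a w : σ → K) : GG d k (mp P A t a w) B = GG d k P B := by
  have h1 : cfg (mp P A t a w) k B = cfg P k B := by
    unfold cfg
    rw [pt_mp_none]
    congr 1
    refine Multiset.map_congr rfl fun b hb => ?_
    rw [pt_mp_some_ne (Finset.disjoint_left.1 h hb)]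
  unfold GG
  rw [h1, pt_mp_none]

/-- if the leading forms do not depend on the points, then there are none or all of them -/
theorem dich {d k : ℕ} {A B : Finset (ℕ × ℕ)} (hdisj : Disjoint B A)
    {Ψ : MvPolynomial (Ix × σ) K} (hΨ : ∀ P, eval P Ψ ≠ 0 → GG d k P A = GG d k P B)
    {P0 : Ix × σ → K} (h0 : eval P0 Ψ ≠ 0) (hv : pt P0 none ≠ 0) (hk : k ≤ d)
    (hne : GG d k P0 A ≠ ⊥) : QQ k (pt P0 none) ≤ GG d k P0 A := by
  intro h hh
  by_contra hcon
  obtain ⟨μ, hμ1, hμ2⟩ := Submodule.exists_le_ker_of_notMem hcon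
  refine hμ1 (funct_zero_QQ hv μ (fun w hw => ?_) hh)
  obtain ⟨g, hg, hg0⟩ := Submodule.exists_mem_ne_zero_of_ne_bot hne
  have hgQ := (GG_le hk P0 A hg).1
  obtain ⟨a, ha⟩ : ∃ a : σ → K, eval a g ≠ 0 := by
    by_contra hcon'
    push Not at hcon'
    exact hg0 (MvPolynomial.funext fun w => by rw [hcon' w, map_zero])
  obtain ⟨F, hF, hFg⟩ := hg
  obtain ⟨q1, hq1⟩ := pl_mp Ψ P0 A a w
  obtain ⟨q3, hq3⟩ := pl_sb μ a w g
  beta_reduce at hq1 hq3
  have key : ∀ t, q1.eval t ≠ 0 → (1 - t) ^ (d - k) * q3.eval t = 0 := by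
    intro t ht
    rw [hq1] at ht
    rw [hq3]
    have e1 : GG d k (mp P0 A t a w) A = GG d k P0 A := by
      rw [hΨ _ ht, GG_mp hdisj, ← hΨ _ h0]
    have e2 : (D (pt P0 none) ^ (d - k)) (sb t a w F) ∈ GG d k (mp P0 A t a w) A := by
      refine ⟨sb t a w F, sb_mem hw hF, ?_⟩
      rw [pt_mp_none]
    rw [e1, Dpow_sb, mv_of_dt hw, Dpow_smul, hFg, map_smul] at e2
    have e3 := hμ2 e2
    rw [LinearMap.mem_ker, map_smul, smul_eq_mul] at e3
    exact e3
  have hz : q1 * ((1 - Polynomial.X) ^ (d - k) * q3) = 0 := by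
    refine Polynomial.funext fun t => ?_
    rw [Polynomial.eval_mul, Polynomial.eval_mul, Polynomial.eval_pow, Polynomial.eval_sub,
      Polynomial.eval_one, Polynomial.eval_X, Polynomial.eval_zero]
    by_cases ht : q1.eval t = 0
    · rw [ht, zero_mul]
    · rw [key t ht, mul_zero]
  have hq10 : q1 ≠ 0 := by
    rintro rfl
    have := hq1 0
    rw [mp_zero, Polynomial.eval_zero] at this
    exact h0 this.symm
  have hX : (1 - Polynomial.X : Polynomial K) ≠ 0 := by
    intro hx
    have := congrArg (Polynomial.eval 0) hx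
    simp at this
  have hq30 : q3 = 0 := by
    rcases mul_eq_zero.1 hz with h1 | h1
    · exact absurd h1 hq10
    · rcases mul_eq_zero.1 h1 with h2 | h2
      · exact absurd h2 (pow_ne_zero _ hX)
      · exact h2
  have h1 := hq3 1
  rw [hq30, Polynomial.eval_zero, sb_one hgQ, map_smul, smul_eq_mul] at h1
  rcases mul_eq_zero.1 h1.symm with h2 | h2
  · exact absurd h2 ha
  · exact h2

end

end K4H38FP
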