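import Mathlib
import Pool.Agent.K4H38.FP.Fam

/-!
The derivatives of the leading forms at a general point are leading forms.
-/

set_option autoImplicit false
set_option linter.unusedSectionVars false

namespace K4H38FP

open MvPolynomial H350MG Module

noncomputable section

variable {K : Type} [Field K] [CharZero K] {σ : Type} [Fintype σ] [DecidableEq σ]

/-- the divided difference of the power of the derivative -/
def Bs (v u : σ → K) (e : ℕ) (t : K) (F : MvPolynomial σ K) : MvPolynomial σ K :=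
  ∑ j ∈ Finset.range e, (t ^ j * (e.choose (j + 1) : K)) •
    (D u ^ (j + 1)) ((D v ^ (e - (j + 1))) F)

lemma D_add' (v u : σ → K) (t : K) : D (v + t • u) = t • D u + D v := by
  rw [← D_smul']
  refine LinearMap.ext fun F => ?_
  rw [LinearMap.add_apply, D_apply, D_apply, D_apply, ← Finset.sum_add_distrib]
  refine Finset.sum_congr rfl fun i _ => ?_
  rw [Pi.add_apply, add_smul, add_comm]

lemma Dpow_add (v u : σ → K) (e : ℕ) (t : K) (F : MvPolynomial σ K) :
    (D (v + t • u) ^ e) F = (D v ^ e) F + t • Bs v u e t F := by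
  have hc : Commute (t • D u) (D v) := (D_comm u v).smul_left t
  rw [D_add', hc.add_pow, Finset.sum_range_succ', LinearMap.add_apply, LinearMap.sum_apply,
    add_comm]
  congr 1
  · simp
  · unfold Bs
    rw [Finset.smul_sum]
    refine Finset.sum_congr rfl fun j _ => ?_
    rw [smul_pow, smul_mul_assoc, smul_mul_assoc, LinearMap.smul_apply, ← Nat.cast_comm,
      ← nsmul_eq_mul, LinearMap.smul_apply, Module.End.mul_apply, smul_smul, smul_comm,
      ← Nat.cast_smul_eq_nsmul K, smul_smul, pow_succ]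
    congr 1
    ring

lemma isPoly_pow {ι : Type} (i : ι) (j : ℕ) : IsPoly (fun θ : ι → K => θ i ^ j) :=
  ⟨X i ^ j, fun x => by simp⟩

lemma isPoly_Bs (v u : σ → K) (e : ℕ) (F : MvPolynomial σ K) (ψ : MvPolynomial σ K →ₗ[K] K) :
    IsPoly (fun θ : Unit → K => ψ (Bs v u e (θ ()) F)) := by
  unfold Bs
  simp only [map_sum, map_smul, smul_eq_mul, mul_assoc]
  exact IsPoly.sum _ fun j _ => (isPoly_pow () j).mul (H350MG.IsPoly.const _)

lemma isPoly_add {ι : Type} {f g : (ι → K) → K} (hf : IsPoly f) (hg : IsPoly g) :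
    IsPoly (fun x => f x + g x) := by
  obtain ⟨p, hp⟩ := hf
  obtain ⟨q, hq⟩ := hg
  exact ⟨p + q, fun x => by simp [hp, hq]⟩

/-- the points with `v` moved -/
def mv0 (P : Ix × σ → K) (u : σ → K) (t : K) : Ix × σ → K := fun y =>
  y.1.elim (P (none, y.2) + t * u y.2) fun c => P (some c, y.2)

lemma pt_mv0_none (P : Ix × σ → K) (u : σ → K) (t : K) :
    pt (mv0 P u t) none = pt P none + t • u := rfl

lemma pt_mv0_some (P : Ix × σ → K) (u : σ → K) (t : K) (c : ℕ × ℕ) :
    pt (mv0 P u t) (some c) = pt P (some c) := rfl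

theorem der_mem {d k : ℕ} (hk : k + 1 ≤ d) {P : Ix × σ → K} {A : Finset (ℕ × ℕ)}
    (hP : finrank K (KS d (cfg P (k + 1) A)) = hv K σ d ((k + 1) ::ₘ A.val.map Prod.fst))
    (u : σ → K) {g : MvPolynomial σ K} (hg : g ∈ GG d (k + 1) P A) : D u g ∈ GG d k P A := by
  obtain ⟨F, hF, rfl⟩ := hg
  have hF' := mem_KS_cfg.1 hF
  obtain ⟨e, he⟩ : ∃ e, d - k = e + 1 := ⟨d - k - 1, by omega⟩
  have he1 : d - (k + 1) = e := by omega
  have he2 : d + 1 - (k + 1) = e + 1 := by omega
  have he3 : d + 1 - k = e + 2 := by omega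
  rw [he1]
  rw [he2] at hF'
  let v := pt P none
  let A1 : Rj K σ d →ₗ[K] ({a // a ∈ A} → MvPolynomial σ K) :=
    LinearMap.pi fun a => (D (pt P (some a.1)) ^ (d + 1 - a.1.1)).domRestrict (Rj K σ d)
  let L : (Unit → K) → (Rj K σ d × K) →ₗ[K] (({a // a ∈ A} → MvPolynomial σ K) ×
      MvPolynomial σ K) := fun θ =>
    LinearMap.prod (A1 ∘ₗ LinearMap.fst K _ _)
      ((D (v + (θ ()) • u) ^ (e + 1)).domRestrict (Rj K σ d) ∘ₗ LinearMap.fst K _ _ +
        (LinearMap.toSpanSingleton K _ (Bs v u (e + 1) (θ ()) F)) ∘ₗ LinearMap.snd K _ _)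
  have hLx : ∀ θ x, L θ x = (A1 x.1, (D (v + (θ ()) • u) ^ (e + 1)) x.1.1 +
      x.2 • Bs v u (e + 1) (θ ()) F) := fun θ x => rfl
  have hL : ∀ (x : Rj K σ d × K)
      (ψ : (({a // a ∈ A} → MvPolynomial σ K) × MvPolynomial σ K) →ₗ[K] K),
      IsPoly (fun θ => ψ (L θ x)) := by
    intro x ψ
    have h1 : (fun θ => ψ (L θ x)) = fun θ : Unit → K =>
        (ψ (A1 x.1, (D v ^ (e + 1)) x.1.1) + θ () * (ψ ∘ₗ LinearMap.inr K _ _)
          (Bs v u (e + 1) (θ ()) x.1.1)) +
        x.2 * (ψ ∘ₗ LinearMap.inr K _ _) (Bs v u (e + 1) (θ ()) F) := by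
      funext θ
      rw [hLx, Dpow_add]
      have e1 : ((A1 x.1, (D v ^ (e + 1)) x.1.1 + θ () • Bs v u (e + 1) (θ ()) x.1.1 +
          x.2 • Bs v u (e + 1) (θ ()) F) :
            ({a // a ∈ A} → MvPolynomial σ K) × MvPolynomial σ K) =
          ((A1 x.1, (D v ^ (e + 1)) x.1.1) +
            θ () • LinearMap.inr K _ _ (Bs v u (e + 1) (θ ()) x.1.1)) +
            x.2 • LinearMap.inr K _ _ (Bs v u (e + 1) (θ ()) F) := by
        ext1
        · simp
        · simp
      rw [e1, map_add, map_add, map_smul, map_smul]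
      rfl
    rw [h1]
    exact isPoly_add (isPoly_add (H350MG.IsPoly.const _)
      ((H350MG.IsPoly.coord ()).mul (isPoly_Bs v u (e + 1) x.1.1 _)))
      ((H350MG.IsPoly.const _).mul (isPoly_Bs v u (e + 1) F _))
  obtain ⟨Φ, hΦ0, hΦ⟩ := generic_ker L hL (fun _ => 0)
  -- a parameter different from zero
  obtain ⟨θ, hθ⟩ : ∃ θ : Unit → K, eval θ (Φ * X ()) ≠ 0 := by
    by_contra hcon
    push Not at hcon
    exact mul_ne_zero hΦ0 (X_ne_zero ()) (MvPolynomial.funext fun w => by rw [hcon w, map_zero])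
  rw [map_mul, eval_X] at hθ
  have ht : θ () ≠ 0 := right_ne_zero_of_mul hθ
  have h1 := hΦ θ (left_ne_zero_of_mul hθ)
  -- the kernel for this parameter
  have h2 : hv K σ d ((k + 1) ::ₘ A.val.map Prod.fst) + 1 ≤
      finrank K (LinearMap.ker (L θ)) := by
    let N := KS d (cfg (mv0 P u (θ ())) (k + 1) A)
    have hN : hv K σ d ((k + 1) ::ₘ A.val.map Prod.fst) ≤ finrank K N :=
      hv_le _ (cfg_snd _ _ _)
    have hFL : ∀ c : {a // a ∈ A}, (D (pt P (some c.1)) ^ (d + 1 - c.1.1)) F = 0 :=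
      fun c => hF'.2.2 c.1 c.2
    let T : (N × K) →ₗ[K] (Rj K σ d × K) :=
      LinearMap.prod ((Submodule.inclusion (KS_le d _)) ∘ₗ LinearMap.fst K _ _ +
        (LinearMap.toSpanSingleton K _ (⟨F, hF'.1⟩ : Rj K σ d)) ∘ₗ LinearMap.snd K _ _)
        ((-(θ ())) • LinearMap.snd K _ _)
    have hT : ∀ x : N × K, T x = (Submodule.inclusion (KS_le d _) x.1 +
        x.2 • (⟨F, hF'.1⟩ : Rj K σ d), -(θ ()) * x.2) := fun x => rfl
    have hmem : ∀ x, T x ∈ LinearMap.ker (L θ) := by
      intro x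
      have hx := mem_KS_cfg.1 x.1.2
      rw [he2, pt_mv0_none] at hx
      rw [LinearMap.mem_ker, hT, hLx]
      have q1 : A1 (Submodule.inclusion (KS_le d _) x.1 + x.2 • (⟨F, hF'.1⟩ : Rj K σ d)) = 0 := by
        rw [map_add, map_smul]
        have r1 : A1 (Submodule.inclusion (KS_le d _) x.1) = 0 := by
          funext c
          exact hx.2.2 c.1 c.2
        have r2 : A1 (⟨F, hF'.1⟩ : Rj K σ d) = 0 := by
          funext c
          exact hFL c
        rw [r1, r2, smul_zero, add_zero]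
      have q2 : (D (v + θ () • u) ^ (e + 1)) ((Submodule.inclusion (KS_le d _) x.1 +
          x.2 • (⟨F, hF'.1⟩ : Rj K σ d) : Rj K σ d) : MvPolynomial σ K) +
          (-(θ ()) * x.2) • Bs v u (e + 1) (θ ()) F = 0 := by
        have r1 : ((Submodule.inclusion (KS_le d _) x.1 +
          x.2 • (⟨F, hF'.1⟩ : Rj K σ d) : Rj K σ d) : MvPolynomial σ K) =
            (x.1 : MvPolynomial σ K) + x.2 • F := rfl
        have r2 : (D (v + θ () • u) ^ (e + 1)) (x.1 : MvPolynomial σ K) = 0 := hx.2.1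
        have r3 : (D v ^ (e + 1)) F = 0 := hF'.2.1
        rw [r1, map_add, map_smul, r2, zero_add, Dpow_add, r3, zero_add, smul_smul, ← add_smul]
        have : x.2 * θ () + -θ () * x.2 = 0 := by ring
        rw [this, zero_smul]
      exact Prod.ext q1 q2
    have hinj : Function.Injective (T.codRestrict (LinearMap.ker (L θ)) hmem) := by
      refine (injective_iff_map_eq_zero _).2 fun x hx => ?_
      have hx : T x = 0 := congrArg Subtype.val hx
      rw [hT, Prod.mk_eq_zero] at hx
      have h5 : x.2 = 0 := by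
        rcases mul_eq_zero.1 hx.2 with h6 | h6
        · exact absurd (neg_eq_zero.1 h6) ht
        · exact h6
      have h6 := hx.1
      rw [h5, zero_smul, add_zero] at h6
      have h7 : x.1 = 0 := by
        have h8 : ((Submodule.inclusion (KS_le d _) x.1 : Rj K σ d) : MvPolynomial σ K) = 0 :=
          congrArg Subtype.val h6
        exact Subtype.ext h8
      exact Prod.ext h7 h5
    have h3 := LinearMap.finrank_le_finrank_of_injective hinj
    rw [Module.finrank_prod, Module.finrank_self] at h3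
    omega
  -- the kernel at zero
  by_contra hcon
  have h3 : finrank K (LinearMap.ker (L fun _ => 0)) ≤ finrank K (KS d (cfg P (k + 1) A)) := by
    have hz : ∀ x ∈ LinearMap.ker (L fun _ => 0), x.2 = 0 := by
      intro x hx
      by_contra hx2
      have hx := LinearMap.mem_ker.1 hx
      change ((A1 x.1, (D (v + (0 : K) • u) ^ (e + 1)) x.1.1 + x.2 • Bs v u (e + 1) 0 F) :
        ({a // a ∈ A} → MvPolynomial σ K) × MvPolynomial σ K) = 0 at hx
      rw [Prod.mk_eq_zero, zero_smul, add_zero] at hx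
      apply hcon
      have hB : Bs v u (e + 1) 0 F = ((e : K) + 1) • D u ((D v ^ e) F) := by
        unfold Bs
        rw [Finset.sum_range_succ']
        have : ∑ j ∈ Finset.range e, ((0 : K) ^ (j + 1) * ((e + 1).choose (j + 1 + 1) : K)) •
            (D u ^ (j + 1 + 1)) ((D v ^ (e + 1 - (j + 1 + 1))) F) = 0 := by
          refine Finset.sum_eq_zero fun j _ => ?_
          rw [zero_pow (Nat.succ_ne_zero j), zero_mul, zero_smul]
        rw [this, zero_add]
        simp
      have hx1 := hx.2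
      rw [hB] at hx1
      refine ⟨(-(x.2 * ((e : K) + 1))⁻¹) • x.1.1, ?_, ?_⟩
      · change _ ∈ KS d (cfg P k A)
        refine Submodule.smul_mem _ _ ?_
        rw [mem_KS_cfg]
        refine ⟨x.1.2, ?_, ?_⟩
        · rw [he3, pow_succ', Module.End.mul_apply]
          have r1 : (D v ^ (e + 1)) x.1.1 = -(x.2 • ((e : K) + 1) • D u ((D v ^ e) F)) :=
            eq_neg_of_add_eq_zero_left hx1
          rw [show pt P none = v from rfl, r1, map_neg, map_smul, map_smul, D_comm_apply,
            ← Module.End.mul_apply (D v), ← pow_succ', hF'.2.1, map_zero, smul_zero, smul_zero,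
            neg_zero]
        · intro c hc
          exact congrFun hx.1 ⟨c, hc⟩
      · rw [he, map_smul]
        have r1 : (D v ^ (e + 1)) x.1.1 = -(x.2 • ((e : K) + 1) • D u ((D v ^ e) F)) :=
          eq_neg_of_add_eq_zero_left hx1
        rw [show pt P none = v from rfl, r1, smul_neg, neg_smul, neg_neg, smul_smul, smul_smul]
        have hne : x.2 * ((e : K) + 1) ≠ 0 := mul_ne_zero hx2 (Nat.cast_add_one_ne_zero e)
        have : (x.2 * ((e : K) + 1))⁻¹ * (x.2 * ((e : K) + 1)) = 1 := inv_mul_cancel₀ hne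
        rw [mul_assoc, this, one_smul]
    let T : LinearMap.ker (L fun _ => 0) →ₗ[K] (Rj K σ d) :=
      (LinearMap.fst K _ _) ∘ₗ (LinearMap.ker (L fun _ => 0)).subtype
    have hT : ∀ x, T x = x.1.1 := fun x => rfl
    have hinj : Function.Injective T := by
      refine (injective_iff_map_eq_zero _).2 fun x hx => ?_
      rw [hT] at hx
      exact Subtype.ext (Prod.ext hx (hz x.1 x.2))
    have hr : LinearMap.range T ≤ Submodule.comap (Rj K σ d).subtype (KS d (cfg P (k + 1) A)) := by
      rintro _ ⟨x, rfl⟩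
      rw [hT, Submodule.mem_comap, Submodule.subtype_apply, mem_KS_cfg, he2]
      have hx := LinearMap.mem_ker.1 x.2
      change ((A1 x.1.1, (D (v + (0 : K) • u) ^ (e + 1)) x.1.1.1 +
        x.1.2 • Bs v u (e + 1) 0 F) :
        ({a // a ∈ A} → MvPolynomial σ K) × MvPolynomial σ K) = 0 at hx
      rw [Prod.mk_eq_zero, hz x.1 x.2, zero_smul, zero_smul, add_zero, add_zero] at hx
      exact ⟨x.1.1.2, hx.2, fun c hc => congrFun hx.1 ⟨c, hc⟩⟩
    rw [← LinearMap.finrank_range_of_inj hinj]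
    refine (Submodule.finrank_mono hr).trans (le_of_eq ?_)
    exact LinearEquiv.finrank_eq (Submodule.comapSubtypeEquivOfLe (KS_le d _))
  omega

end

end K4H38FP
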