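import Mathlib
import Pool.Agent.K4H38.FP.Der

/-!
The properties of the generic dimensions.
-/

set_option autoImplicit false
set_option linter.unusedSectionVars false

namespace K4H38FP

open MvPolynomial H350MG Module

noncomputable section

variable {K : Type} [Field K] [CharZero K] {σ : Type} [Fintype σ] [DecidableEq σ]

lemma Gen.reindex {Γ : Type} {Q : (Γ → K) → Prop} (H : Gen K Q) (ρ : Γ ≃ Γ) :
    Gen K (fun θ => Q (θ ∘ ρ)) := by
  obtain ⟨Φ, h0, h⟩ := H
  refine ⟨rename ρ Φ, ?_, fun θ hθ => h _ ?_⟩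
  · intro h1
    apply h0
    apply rename_injective ρ ρ.injective
    rw [h1, map_zero]
  · rwa [eval_rename] at hθ

lemma gen_ne [Nonempty σ] : Gen K (fun P : Ix × σ → K => pt P none ≠ 0) := by
  refine ⟨X (none, Classical.arbitrary σ), X_ne_zero _, fun P hP h => ?_⟩
  rw [eval_X] at hP
  exact hP (congrFun h _)

/-- the number of the forms of degree `k` on the quotient by a nonzero vector -/
def ak (σ : Type) [Fintype σ] (k : ℕ) : ℕ :=
  (Fintype.card σ + k - 1).choose k - (if k = 0 then 0 else (Fintype.card σ + (k - 1) - 1).choose (k - 1))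

lemma mem_span_of_lin {k : ℕ} {N : Submodule K (MvPolynomial σ K)}
    (h : ∀ μ : MvPolynomial σ K →ₗ[K] K, N ≤ LinearMap.ker μ → ∀ w : σ → K, μ (lin w ^ k) = 0) :
    Rj K σ k ≤ N := by
  intro F hF
  by_contra hcon
  obtain ⟨μ, hμ1, hμ2⟩ := Submodule.exists_le_ker_of_notMem hcon
  exact hμ1 (funct_zero μ (h μ hμ2) hF)

lemma D_linpow (u w : σ → K) (k : ℕ) :
    D u (lin w ^ (k + 1)) = (((k : K) + 1) * dt w u) • lin w ^ k := by
  induction k with
  | zero =>
    rw [zero_add, pow_one, D_lin, pow_zero, smul_eq_C_mul, mul_one]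
    simp
  | succ k ih =>
    rw [pow_succ, D_mul, ih, D_lin, smul_eq_C_mul, smul_eq_C_mul]
    push_cast
    simp only [C_mul, C_add, C_1]
    ring

lemma isPoly_linpow (μ : MvPolynomial σ K →ₗ[K] K) (k : ℕ) :
    ∃ p : MvPolynomial σ K, ∀ w, eval w p = μ (lin w ^ k) := by
  refine ⟨∑ κ ∈ (Finset.univ : Finset σ).piAntidiag k,
    monomial (Finsupp.equivFunOnFinite.symm κ) ((Nat.multinomial Finset.univ κ : K) *
      μ (monomial (Finsupp.equivFunOnFinite.symm κ) 1)), fun w => ?_⟩
  rw [lin_pow_expand]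
  simp only [map_sum, map_smul, smul_eq_mul]
  refine Finset.sum_congr rfl fun κ _ => ?_
  rw [eval_monomial, Finsupp.prod_fintype _ _ (fun i => pow_zero _)]
  have : ∀ i, (Finsupp.equivFunOnFinite.symm κ : σ →₀ ℕ) i = κ i := fun i => rfl
  simp only [this]
  ring

lemma D_surj {v : σ → K} (hv : v ≠ 0) (k : ℕ) : Rj K σ k ≤ (Rj K σ (k + 1)).map (D v) := by
  refine mem_span_of_lin fun μ hμ w => ?_
  obtain ⟨p, hp⟩ := isPoly_linpow μ k
  obtain ⟨i0, hi0⟩ : ∃ i, v i ≠ 0 := by
    by_contra hcon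
    push Not at hcon
    exact hv (funext hcon)
  have h1 : p * lin v = 0 := by
    refine MvPolynomial.funext fun w' => ?_
    rw [map_mul, map_zero, hp]
    have h2 : D v (lin w' ^ (k + 1)) ∈ (Rj K σ (k + 1)).map (D v) :=
      ⟨_, linpow_hom w' (k + 1), rfl⟩
    have h3 := LinearMap.mem_ker.1 (hμ h2)
    rw [D_linpow, map_smul, smul_eq_mul, mul_assoc] at h3
    have h4 : eval w' (lin v) = dt w' v := by
      unfold lin dt
      rw [map_sum]
      refine Finset.sum_congr rfl fun i _ => ?_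
      rw [smul_eval, eval_X, mul_comm]
    rw [h4, mul_comm]
    rcases mul_eq_zero.1 h3 with h5 | h5
    · exact absurd h5 (Nat.cast_add_one_ne_zero k)
    · exact h5
  have h2 : (lin v : MvPolynomial σ K) ≠ 0 := by
    intro h
    have h3 := congrArg (D (Pi.single i0 1)) h
    rw [D_lin, map_zero] at h3
    have h4 : dt v (Pi.single i0 1) = v i0 := by
      unfold dt
      rw [Finset.sum_eq_single i0]
      · simp
      · intro j _ hj
        rw [Pi.single_eq_of_ne hj, mul_zero]
      · intro h'; exact absurd (Finset.mem_univ _) h'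
    rw [h4, C_eq_zero] at h3
    exact hi0 h3
  have h3 : p = 0 := by
    rcases mul_eq_zero.1 h1 with h4 | h4
    · exact h4
    · exact absurd h4 h2
  rw [← hp, h3, map_zero]

lemma finrank_QQ {v : σ → K} (hv : v ≠ 0) (k : ℕ) : finrank K (QQ k v) = ak σ k := by
  unfold ak
  rcases Nat.eq_zero_or_pos k with hk | hk
  · subst hk
    rw [if_pos rfl, Nat.sub_zero]
    have h1 : QQ 0 v = Rj K σ 0 := by
      refine le_antisymm (QQ_le 0 v) fun F hF => ⟨hF, ?_⟩
      exact LinearMap.mem_ker.2 (D_zero_hom hF)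
    rw [h1, finrank_Rj]
  · obtain ⟨j, rfl⟩ : ∃ j, k = j + 1 := ⟨k - 1, by omega⟩
    rw [if_neg (Nat.succ_ne_zero j), Nat.add_sub_cancel, ← finrank_Rj (𝕜 := K) (σ := σ) (j + 1),
      ← finrank_Rj (𝕜 := K) (σ := σ) j]
    let T : Rj K σ (j + 1) →ₗ[K] MvPolynomial σ K := (D v).domRestrict (Rj K σ (j + 1))
    have h1 := LinearMap.finrank_range_add_finrank_ker T
    have h2 : LinearMap.range T = Rj K σ j := by
      refine le_antisymm ?_ ?_
      · rintro _ ⟨x, rfl⟩
        have := D_hom (v := v) x.2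
        rwa [Nat.add_sub_cancel] at this
      · intro F hF
        obtain ⟨G, hG, rfl⟩ := D_surj hv j hF
        exact ⟨⟨G, hG⟩, rfl⟩
    have h3 : LinearMap.ker T = Submodule.comap (Rj K σ (j + 1)).subtype (QQ (j + 1) v) := by
      ext F
      rw [LinearMap.mem_ker, Submodule.mem_comap, Submodule.subtype_apply]
      exact ⟨fun h => ⟨F.2, LinearMap.mem_ker.2 h⟩, fun h => LinearMap.mem_ker.1 h.2⟩
    rw [h2, h3, LinearEquiv.finrank_eq (Submodule.comapSubtypeEquivOfLe (QQ_le _ v))] at h1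
    omega

lemma gk_le [Nonempty σ] {d k : ℕ} (hk : k ≤ d) (s : Multiset ℕ) : gk K σ d k s ≤ ak σ k := by
  obtain ⟨A, rfl⟩ := exists_fin s
  obtain ⟨P, hP1, hP2⟩ := ((gen_GG (K := K) (σ := σ) hk A).and gen_ne).exists
  rw [← hP1, ← finrank_QQ hP2 k]
  exact Submodule.finrank_mono (GG_le hk P A)

lemma hv_zero (d : ℕ) (s : Multiset ℕ) : hv K σ d (0 ::ₘ s) = hv K σ d s := by
  refine le_antisymm ?_ ?_
  · obtain ⟨c, hc, hc2⟩ := hv_spec (K := K) (σ := σ) d s
    rw [← hc2]
    refine (hv_le ((0, 0) ::ₘ c) (by rw [Multiset.map_cons, hc])).trans ?_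
    exact Submodule.finrank_mono (KS_mono fun x hx => Multiset.mem_cons_of_mem hx)
  · obtain ⟨c, hc, hc2⟩ := hv_spec (K := K) (σ := σ) d (0 ::ₘ s)
    have hmem : (0 : ℕ) ∈ c.map Prod.snd := by rw [hc]; exact Multiset.mem_cons_self _ _
    obtain ⟨x, hx, hxa⟩ := Multiset.mem_map.1 hmem
    obtain ⟨c', rfl⟩ := Multiset.exists_cons_of_mem hx
    rw [Multiset.map_cons, hxa, Multiset.cons_inj_right] at hc
    rw [← hc2]
    refine (hv_le c' hc).trans (Submodule.finrank_mono ?_)
    intro F hF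
    refine ⟨hF.1, fun y hy => ?_⟩
    rw [Multiset.mem_cons] at hy
    rcases hy with rfl | hy
    · rw [hxa]
      exact Dpow_zero_hom (by omega) hF.1
    · exact hF.2 y hy

lemma gk_zero (d k : ℕ) (s : Multiset ℕ) : gk K σ d k (0 ::ₘ s) = gk K σ d k s := by
  unfold gk
  rw [Multiset.cons_swap, hv_zero, Multiset.cons_swap, hv_zero]

/-- a larger multiplicity gives fewer leading forms -/
lemma gk_anti [Nonempty σ] {d k m m' : ℕ} (hk : k ≤ d) (hm : m ≤ m') (s : Multiset ℕ) :
    gk K σ d k (m' ::ₘ s) ≤ gk K σ d k (m ::ₘ s) := by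
  classical
  rcases hm.eq_or_lt with rfl | hlt
  · exact le_rfl
  obtain ⟨A, rfl⟩ := exists_fin s
  have hfresh : ∀ x : ℕ, ∃ j : ℕ, (x, j) ∉ A := by
    intro x
    by_contra hcon
    push Not at hcon
    have hinj : Function.Injective (fun j : ℕ => (x, j)) := fun y z hyz => by
      simpa using hyz
    exact (Set.infinite_of_injective_forall_mem hinj hcon) A.finite_toSet
  obtain ⟨j, hj⟩ := hfresh m
  obtain ⟨j', hj'⟩ := hfresh m'
  let ρ : Ix × σ ≃ Ix × σ := Equiv.prodCongr (Equiv.swap (some (m, j)) (some (m', j')))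
    (Equiv.refl σ)
  obtain ⟨P, hP1, hP2⟩ := ((gen_GG (K := K) (σ := σ) hk (insert (m', j') A)).and
    ((gen_GG (K := K) (σ := σ) hk (insert (m, j) A)).reindex ρ)).exists
  rw [Finset.insert_val_of_notMem hj', Multiset.map_cons] at hP1
  rw [Finset.insert_val_of_notMem hj, Multiset.map_cons] at hP2
  change _ = gk K σ d k (m' ::ₘ _) at hP1
  change _ = gk K σ d k (m ::ₘ _) at hP2
  rw [← hP1, ← hP2]
  have e0 : pt (P ∘ ρ) none = pt P none := by
    funext i
    change P (Equiv.swap (some (m, j)) (some (m', j')) none, i) = P (none, i)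
    rw [Equiv.swap_apply_of_ne_of_ne (by simp) (by simp)]
  have e1 : pt (P ∘ ρ) (some (m, j)) = pt P (some (m', j')) := by
    funext i
    change P (Equiv.swap (some (m, j)) (some (m', j')) (some (m, j)), i) = _
    rw [Equiv.swap_apply_left]
    rfl
  have e2 : ∀ a ∈ A, pt (P ∘ ρ) (some a) = pt P (some a) := by
    intro a ha
    funext i
    change P (Equiv.swap (some (m, j)) (some (m', j')) (some a), i) = _
    rw [Equiv.swap_apply_of_ne_of_ne]
    · rfl
    · intro h
      exact hj (Option.some_injective _ h ▸ ha)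
    · intro h
      exact hj' (Option.some_injective _ h ▸ ha)
  refine Submodule.finrank_mono ?_
  unfold GG
  rw [e0]
  refine Submodule.map_mono fun F hF => ?_
  rw [mem_KS_cfg] at hF ⊢
  refine ⟨hF.1, ?_, ?_⟩
  · rw [e0]
    exact hF.2.1
  · intro a ha
    rw [Finset.mem_insert] at ha
    rcases ha with rfl | ha
    · rw [e1]
      exact Dpow_mono (by change d + 1 - m' ≤ d + 1 - m; omega)
        (hF.2.2 _ (Finset.mem_insert_self _ _))
    · rw [e2 a ha]
      exact hF.2.2 a (Finset.mem_insert_of_mem ha)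

lemma exists_dt_ne {w : σ → K} (hw : w ≠ 0) : ∃ u : σ → K, dt w u ≠ 0 := by
  obtain ⟨i0, hi0⟩ : ∃ i, w i ≠ 0 := by
    by_contra hcon
    push Not at hcon
    exact hw (funext hcon)
  refine ⟨Pi.single i0 1, ?_⟩
  have h4 : dt w (Pi.single i0 1) = w i0 := by
    unfold dt
    rw [Finset.sum_eq_single i0]
    · simp
    · intro j _ hj
      rw [Pi.single_eq_of_ne hj, mul_zero]
    · intro h'; exact absurd (Finset.mem_univ _) h'
  rw [h4]
  exact hi0

lemma exists_dt_zero [Nontrivial σ] (v : σ → K) : ∃ w : σ → K, w ≠ 0 ∧ dt w v = 0 := by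
  obtain ⟨i, j, hij⟩ := exists_pair_ne σ
  by_cases hi : v i = 0
  · refine ⟨Pi.single i 1, ?_, ?_⟩
    · intro h
      have := congrFun h i
      rw [Pi.single_eq_same] at this
      exact one_ne_zero this
    · unfold dt
      rw [Finset.sum_eq_single i]
      · rw [hi, mul_zero]
      · intro k _ hk
        rw [Pi.single_eq_of_ne hk, zero_mul]
      · intro h'; exact absurd (Finset.mem_univ _) h'
  · refine ⟨Pi.single i (v j) - Pi.single j (v i), ?_, ?_⟩
    · intro h
      have := congrFun h j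
      rw [Pi.sub_apply, Pi.single_eq_same, Pi.single_eq_of_ne hij.symm, zero_sub, Pi.zero_apply,
        neg_eq_zero] at this
      exact hi this
    · unfold dt
      simp only [Pi.sub_apply, sub_mul, Finset.sum_sub_distrib]
      rw [Finset.sum_eq_single i, Finset.sum_eq_single j]
      · rw [Pi.single_eq_same, Pi.single_eq_same]
        ring
      · intro k _ hk
        rw [Pi.single_eq_of_ne hk, zero_mul]
      · intro h'; exact absurd (Finset.mem_univ _) h'
      · intro k _ hk
        rw [Pi.single_eq_of_ne hk, zero_mul]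
      · intro h'; exact absurd (Finset.mem_univ _) h'

/-- if all forms of degree `k + 1` are leading forms, so are all of degree `k` -/
lemma gk_full [Nontrivial σ] {d k : ℕ} (hk : k + 1 ≤ d) {s : Multiset ℕ}
    (h : gk K σ d (k + 1) s = ak σ (k + 1)) : gk K σ d k s = ak σ k := by
  obtain ⟨A, rfl⟩ := exists_fin s
  obtain ⟨P, ⟨⟨hP1, hP2⟩, hP3⟩, hP4⟩ := ((((gen_GG (K := K) (σ := σ) hk A).and
    (gen_GG (by omega : k ≤ d) A)).and gen_ne).and (gen_dim d (k + 1) A)).exists
  rw [← hP2, ← finrank_QQ hP3 k]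
  have e1 : GG d (k + 1) P A = QQ (k + 1) (pt P none) :=
    Submodule.eq_of_le_of_finrank_eq (GG_le hk P A) (by rw [hP1, h, finrank_QQ hP3])
  have e2 : QQ k (pt P none) ≤ GG d k P A := by
    intro F hF
    by_contra hcon
    obtain ⟨μ, hμ1, hμ2⟩ := Submodule.exists_le_ker_of_notMem hcon
    have hlin : ∀ w : σ → K, w ≠ 0 → dt w (pt P none) = 0 → μ (lin w ^ k) = 0 := by
      intro w hw0 hw
      obtain ⟨u, hu⟩ := exists_dt_ne hw0
      have h1 : (lin w ^ (k + 1) : MvPolynomial σ K) ∈ GG d (k + 1) P A := by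
        rw [e1]
        refine ⟨linpow_hom w (k + 1), ?_⟩
        change D (pt P none) (lin w ^ (k + 1)) = 0
        rw [D_linpow, hw, mul_zero, zero_smul]
      have h2 := hμ2 (der_mem hk hP4 u h1)
      rw [LinearMap.mem_ker, D_linpow, map_smul, smul_eq_mul] at h2
      rcases mul_eq_zero.1 h2 with h3 | h3
      · exact absurd h3 (mul_ne_zero (Nat.cast_add_one_ne_zero k) hu)
      · exact h3
    refine hμ1 (funct_zero_QQ hP3 μ (fun w hw => ?_) hF)
    by_cases hw0 : w = 0
    · rcases Nat.eq_zero_or_pos k with hk0 | hk0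
      · subst hk0
        obtain ⟨w', hw', hw'2⟩ := exists_dt_zero (pt P none)
        have := hlin w' hw' hw'2
        rwa [pow_zero] at this ⊢
      · have : (lin w : MvPolynomial σ K) = 0 := by rw [hw0]; simp [lin]
        rw [this, zero_pow hk0.ne', map_zero]
    · exact hlin w hw0 hw
  exact congrArg (fun N : Submodule K (MvPolynomial σ K) => finrank K N)
    (le_antisymm (GG_le (by omega) P A) e2)

/-- the number of the leading forms drops strictly -/
lemma gk_drop [Nonempty σ] {d k : ℕ} (hk : k ≤ d) {s : Multiset ℕ} (h0 : 0 < gk K σ d k s)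
    (h1 : gk K σ d k s < ak σ k) : ∃ m ∈ s, gk K σ d k (m ::ₘ s) < gk K σ d k s := by
  by_contra hcon
  push Not at hcon
  have heq : ∀ m ∈ s, gk K σ d k (m ::ₘ s) = gk K σ d k s := by
    intro m hm
    refine le_antisymm ?_ (hcon m hm)
    have := gk_anti (K := K) (σ := σ) hk (Nat.zero_le m) s
    rwa [gk_zero] at this
  obtain ⟨A, rfl⟩ := exists_fin s
  obtain ⟨B, _, hB2, Ψ, hΨ0, hΨ⟩ := gen_move (K := K) (σ := σ) hk A _ A rfl
    (fun a ha => heq a.1 (Multiset.mem_map.2 ⟨a, ha, rfl⟩))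
  have hg : Gen K (fun P : Ix × σ → K => eval P Ψ ≠ 0) := ⟨Ψ, hΨ0, fun _ h => h⟩
  obtain ⟨P, ⟨hP1, hP2⟩, hP3⟩ := ((hg.and gen_ne).and (gen_GG (K := K) (σ := σ) hk A)).exists
  have hne : GG d k P A ≠ ⊥ := by
    intro h
    rw [h, finrank_bot] at hP3
    omega
  have h2 := Submodule.finrank_mono (dich hB2 hΨ hP1 hP2 hk hne)
  rw [finrank_QQ hP2, hP3] at h2
  omega

lemma hv_top {d k : ℕ} (hk : d < k) (s : Multiset ℕ) : hv K σ d (k ::ₘ s) = 0 := by
  obtain ⟨c, hc, hc2⟩ := hv_spec (K := K) (σ := σ) d (k ::ₘ s)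
  have hmem : k ∈ c.map Prod.snd := by rw [hc]; exact Multiset.mem_cons_self _ _
  obtain ⟨x, hx, hxa⟩ := Multiset.mem_map.1 hmem
  rw [← hc2]
  have : KS d c = ⊥ := by
    rw [eq_bot_iff]
    intro F hF
    have h1 := hF.2 x hx
    rw [hxa, show d + 1 - k = 0 by omega, pow_zero] at h1
    exact h1
  rw [this, finrank_bot]

/-- no leading forms of degree `k` at a general point: no forms vanish there to the order `k` -/
lemma hv_of_gk [Nonempty σ] {d : ℕ} {s : Multiset ℕ} : ∀ j k : ℕ, k + j = d →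
    gk K σ d k s = 0 → hv K σ d (k ::ₘ s) = 0 := by
  intro j
  induction j with
  | zero =>
    intro k hk h
    rw [hv_gk (by omega), h, hv_top (by omega)]
  | succ j ih =>
    intro k hk h
    rw [hv_gk (by omega), h, add_zero]
    refine ih (k + 1) (by omega) ?_
    obtain ⟨A, rfl⟩ := exists_fin s
    obtain ⟨P, ⟨hP1, hP2⟩, hP4⟩ := (((gen_GG (K := K) (σ := σ) (by omega : k + 1 ≤ d) A).and
      (gen_GG (by omega : k ≤ d) A)).and (gen_dim d (k + 1) A)).exists
    rw [← hP1]
    rw [h] at hP2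
    have e1 : GG d k P A = ⊥ := Submodule.finrank_eq_zero.1 hP2
    have e2 : GG d (k + 1) P A = ⊥ := by
      rw [eq_bot_iff]
      intro g hg
      have h2 : ∀ u : σ → K, D u g = 0 := by
        intro u
        have := der_mem (by omega) hP4 u hg
        rw [e1] at this
        exact this
      have h3 : ∑ i : σ, X i * pderiv i g = (k + 1) • g := by
        have hg' : g.IsHomogeneous (k + 1) := (GG_le (by omega : k + 1 ≤ d) P A hg).1
        exact hg'.sum_X_mul_pderiv
      have h4 : (k + 1) • g = 0 := by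
        rw [← h3]
        refine Finset.sum_eq_zero fun i _ => ?_
        rw [← D_single, h2, mul_zero]
      rcases smul_eq_zero.1 h4 with h5 | h5
      · exact absurd h5 (Nat.succ_ne_zero k)
      · exact h5
    rw [e2, finrank_bot]

lemma hv_empty (d : ℕ) : hv K σ d 0 = (Fintype.card σ + d - 1).choose d := by
  obtain ⟨c, hc, hc2⟩ := hv_spec (K := K) (σ := σ) d 0
  rw [Multiset.map_eq_zero] at hc
  subst hc
  rw [← hc2, ← finrank_Rj (𝕜 := K) (σ := σ) d]
  have : KS d (0 : Multiset ((σ → K) × ℕ)) = Rj K σ d := by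
    ext F
    simp [mem_KS]
  rw [this]

end

end K4H38FP
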