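import Mathlib

/-!
The arithmetic of the generic dimensions.
-/

set_option autoImplicit false

namespace K4H38FP

/-- the properties of the generic dimensions which are used -/
structure Sys (d D : ℕ) (h : Multiset ℕ → ℕ) (g : ℕ → Multiset ℕ → ℕ) (a N : ℕ → ℕ) : Prop where
  N0 : N 0 = 0
  Ns : ∀ k, N (k + 1) = N k + a k
  amono : Monotone a
  apos : ∀ k, 1 ≤ a k
  h0 : ∀ s, h (0 ::ₘ s) = h s
  h1 : ∀ k ≤ d, ∀ s, h (k ::ₘ s) = h ((k + 1) ::ₘ s) + g k s
  h2 : ∀ k ≤ d, ∀ s, g k s ≤ a k
  h3 : ∀ k ≤ d, ∀ m m', m ≤ m' → ∀ s, g k (m' ::ₘ s) ≤ g k (m ::ₘ s)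
  g0 : ∀ k s, g k (0 ::ₘ s) = g k s
  h4 : ∀ k, k + 1 ≤ d → ∀ s, g (k + 1) s = a (k + 1) → g k s = a k
  h5 : ∀ k ≤ d, ∀ s, 0 < g k s → g k s < a k → ∃ m ∈ s, g k (m ::ₘ s) < g k s
  h6 : ∀ k ≤ d, ∀ s, g k s = 0 → h (k ::ₘ s) = 0
  h7 : h 0 = D

variable {d D : ℕ} {h : Multiset ℕ → ℕ} {g : ℕ → Multiset ℕ → ℕ} {a N : ℕ → ℕ}

namespace Sys

lemma N_sum (S : Sys d D h g a N) (m : ℕ) : N m = ∑ k ∈ Finset.range m, a k := by
  induction m with
  | zero => rw [S.N0]; rfl
  | succ m ih => rw [S.Ns, ih, Finset.sum_range_succ]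

lemma N_mono (S : Sys d D h g a N) : Monotone N :=
  monotone_nat_of_le_succ fun k => by rw [S.Ns]; omega

lemma h_sum (S : Sys d D h g a N) (s : Multiset ℕ) : ∀ m ≤ d + 1,
    h s = h (m ::ₘ s) + ∑ k ∈ Finset.range m, g k s := by
  intro m
  induction m with
  | zero => intro _; rw [S.h0]; simp
  | succ m ih =>
    intro hm
    rw [ih (by omega), S.h1 m (by omega), Finset.sum_range_succ]
    ring

lemma h_anti (S : Sys d D h g a N) (s : Multiset ℕ) {m m' : ℕ} (hm : m ≤ m') (hm' : m' ≤ d + 1) :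
    h (m' ::ₘ s) ≤ h (m ::ₘ s) := by
  obtain ⟨j, rfl⟩ := Nat.exists_eq_add_of_le hm
  clear hm
  induction j with
  | zero => exact le_rfl
  | succ j ih =>
    refine le_trans ?_ (ih (by omega))
    rw [S.h1 (m + j) (by omega)]
    exact Nat.le_add_right _ _

lemma h_le (S : Sys d D h g a N) (s : Multiset ℕ) {m : ℕ} (hm : m ≤ d + 1) :
    h (m ::ₘ s) ≤ h s := by
  have := S.h_anti s (Nat.zero_le m) hm
  rwa [S.h0] at this

lemma g_anti (S : Sys d D h g a N) (s : Multiset ℕ) (m : ℕ) {k : ℕ} (hk : k ≤ d) :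
    g k (m ::ₘ s) ≤ g k s := by
  have := S.h3 k hk 0 m (Nat.zero_le m) s
  rwa [S.g0] at this

lemma g_le (S : Sys d D h g a N) (s : Multiset ℕ) {k : ℕ} (hk : k ≤ d) : g k s ≤ h s := by
  have h1 := S.h1 k hk s
  have h2 := S.h_le s (m := k) (by omega)
  omega

/-- strict drop for a large multiplicity -/
lemma drop (S : Sys d D h g a N) {s : Multiset ℕ} {M k : ℕ} (hs : ∀ m ∈ s, m ≤ M) (hk : k ≤ d)
    (h0 : 0 < g k s) (h1 : g k s < a k) : g k (M ::ₘ s) < g k s := by
  obtain ⟨m, hm, hlt⟩ := S.h5 k hk s h0 h1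
  exact (S.h3 k hk m M (hs m hm) s).trans_lt hlt

lemma full (S : Sys d D h g a N) {s : Multiset ℕ} : ∀ {k : ℕ}, k ≤ d → g k s = a k →
    ∀ j ≤ k, g j s = a j := by
  intro k
  induction k with
  | zero =>
    intro _ h0 j hj
    obtain rfl : j = 0 := by omega
    exact h0
  | succ k ih =>
    intro hk h0 j hj
    rcases Nat.lt_or_ge j (k + 1) with h1 | h1
    · exact ih (by omega) (S.h4 k hk s h0) j (by omega)
    · obtain rfl : j = k + 1 := by omega
      exact h0

lemma h_full (S : Sys d D h g a N) {s : Multiset ℕ} {k m : ℕ} (hk : k ≤ d) (h0 : g k s = a k)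
    (hm : m ≤ k + 1) : h s = h (m ::ₘ s) + N m := by
  rw [S.h_sum s m (by omega), S.N_sum]
  congr 1
  refine Finset.sum_congr rfl fun j hj => ?_
  exact S.full hk h0 j (by rw [Finset.mem_range] at hj; omega)

/-- the dimension is bounded if not all forms of degree `k` are leading forms -/
lemma bound (S : Sys d D h g a N) {M k : ℕ} (hM : M ≤ d + 1) (hkM : k < M) (c : ℕ) :
    ∀ s : Multiset ℕ, (∀ m ∈ s, m ≤ M) → g k s ≤ c → c < a k →
      2 * (h s : ℤ) ≤ 2 * c * (N M - a k) + c * (c + 1) + 2 * N k := by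
  have hk : k ≤ d := by omega
  have hNa : N k + a k ≤ N M := by rw [← S.Ns]; exact S.N_mono hkM
  have hNaZ : (N k : ℤ) + a k ≤ N M := by exact_mod_cast hNa
  induction c with
  | zero =>
    intro s hs hc hc'
    have h1 := S.h6 k hk s (by omega)
    have h2 := S.h_sum s k (by omega)
    rw [h1] at h2
    have h3 : ∑ j ∈ Finset.range k, g j s ≤ N k := by
      rw [S.N_sum]
      exact Finset.sum_le_sum fun j hj => S.h2 j (by rw [Finset.mem_range] at hj; omega) s
    have h4 : (h s : ℤ) ≤ N k := by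
      have : h s ≤ N k := by omega
      exact_mod_cast this
    push_cast
    linarith
  | succ c ih =>
    intro s hs hc hc'
    by_cases hg : g k s ≤ c
    · have h1 := ih s hs hg (by omega)
      have h2 : (0 : ℤ) ≤ N M - a k := by linarith [(Nat.cast_nonneg (N k) : (0 : ℤ) ≤ N k)]
      push_cast
      nlinarith
    · have hg' : g k s = c + 1 := by omega
      have h1 := S.drop hs hk (by omega) (by omega)
      have h2 := ih (M ::ₘ s) (by
        intro m hm
        rw [Multiset.mem_cons] at hm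
        rcases hm with rfl | hm
        · exact le_rfl
        · exact hs m hm) (by omega) (by omega)
      have h3 := S.h_sum s M hM
      have h4 : ∑ j ∈ Finset.range M, g j s + a k ≤ N M + (c + 1) := by
        rw [S.N_sum]
        have e1 := Finset.sum_erase_add (Finset.range M) (fun j => g j s)
          (Finset.mem_range.2 hkM)
        have e2 := Finset.sum_erase_add (Finset.range M) a (Finset.mem_range.2 hkM)
        have e3 : ∑ j ∈ (Finset.range M).erase k, g j s ≤ ∑ j ∈ (Finset.range M).erase k, a j :=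
          Finset.sum_le_sum fun j hj => S.h2 j (by
            have := Finset.mem_range.1 (Finset.mem_of_mem_erase hj)
            omega) s
        rw [← e1, ← e2]
        omega
      have h5 : (h s : ℤ) ≤ h (M ::ₘ s) + (N M + (c + 1) - a k) := by
        have : h s + a k ≤ h (M ::ₘ s) + (N M + (c + 1)) := by omega
        have : (h s : ℤ) + a k ≤ h (M ::ₘ s) + (N M + (c + 1)) := by exact_mod_cast this
        linarith
      push_cast
      linarith

/-- independent conditions if the expected dimension is large -/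
theorem lower (S : Sys d D h g a N) {M : ℕ} (hM : M ≤ d + 1) (hM0 : 1 ≤ M) :
    ∀ s : Multiset ℕ, (∀ m ∈ s, m ≤ M) →
      2 * ((a (M - 1) : ℤ) - 1) * N M - a (M - 1) * (a (M - 1) + 1) <
        2 * ((D : ℤ) - (s.map N).sum) → h s + (s.map N).sum = D := by
  intro s
  induction s using Multiset.induction_on with
  | empty => intro _ _; rw [S.h7]; simp
  | cons m s ih =>
    intro hs hlt
    rw [Multiset.map_cons, Multiset.sum_cons] at hlt ⊢
    have hsm : ∀ x ∈ s, x ≤ M := fun x hx => hs x (Multiset.mem_cons_of_mem hx)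
    have hm := hs m (Multiset.mem_cons_self _ _)
    push_cast at hlt
    have h1 := ih hsm (by
      have : (0 : ℤ) ≤ N m := Nat.cast_nonneg _
      push_cast
      linarith)
    rcases Nat.eq_zero_or_pos m with hm0 | hm0
    · subst hm0
      rw [S.h0, S.N0]
      omega
    obtain ⟨k, rfl⟩ : ∃ k, m = k + 1 := ⟨m - 1, by omega⟩
    have hk : k ≤ d := by omega
    rcases (S.h2 k hk s).eq_or_lt with h2 | h2
    · have := S.h_full hk h2 le_rfl
      omega
    · exfalso
      have h3 := S.bound hM (by omega : k < M) (g k s) s hsm le_rfl h2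
      have hNa : N k + a k ≤ N M := by rw [← S.Ns]; exact S.N_mono (by omega)
      have hNaZ : (N k : ℤ) + a k ≤ N M := by exact_mod_cast hNa
      have hc : (g k s : ℤ) ≤ a k - 1 := by
        have : g k s + 1 ≤ a k := h2
        have : (g k s : ℤ) + 1 ≤ a k := by exact_mod_cast this
        linarith
      have hc0 : (0 : ℤ) ≤ g k s := Nat.cast_nonneg _
      have hN0 : (0 : ℤ) ≤ N k := Nat.cast_nonneg _
      have h4 : 2 * (h s : ℤ) ≤ 2 * (a k - 1) * (N M - a k) + (a k - 1) * a k + 2 * N k := by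
        nlinarith
      have h5 : (h s : ℤ) + ((s.map N).sum : ℕ) = D := by exact_mod_cast h1
      have h6 : (N (k + 1) : ℤ) = N k + a k := by exact_mod_cast S.Ns k
      have h7 : 2 * ((D : ℤ) - (N (k + 1) + ((s.map N).sum : ℕ))) ≤
          2 * (a k - 1) * N M - a k * (a k + 1) := by
        rw [h6, ← h5]
        nlinarith
      -- monotonicity in `a k`
      have hax : a k ≤ a (M - 1) := S.amono (by omega)
      have hay : a (M - 1) ≤ N M := by
        have := S.Ns (M - 1)
        rw [show M - 1 + 1 = M by omega] at this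
        omega
      have h8 : 2 * ((a k : ℤ) - 1) * N M - a k * (a k + 1) ≤
          2 * ((a (M - 1) : ℤ) - 1) * N M - a (M - 1) * (a (M - 1) + 1) := by
        rcases hax.eq_or_lt with h9 | h9
        · rw [h9]
        · have x1 : (a k : ℤ) + 1 ≤ a (M - 1) := by exact_mod_cast h9
          have x2 : (a (M - 1) : ℤ) ≤ N M := by exact_mod_cast hay
          nlinarith [mul_nonneg (by linarith : (0 : ℤ) ≤ a (M - 1) - a k)
            (by linarith : (0 : ℤ) ≤ 2 * (N M : ℤ) - (a k + a (M - 1) + 1))]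
      push_cast at h7
      linarith

lemma chain_full (S : Sys d D h g a N) {k : ℕ} (hk : k ≤ d) : ∀ s : Multiset ℕ,
    (∀ m ∈ s, m ≤ k + 1) → g k s = a k → h s + (s.map N).sum = D := by
  intro s
  induction s using Multiset.induction_on with
  | empty => intro _ _; rw [S.h7]; simp
  | cons m s ih =>
    intro hs hg
    have h1 : g k s = a k := le_antisymm (S.h2 k hk s) (by rw [← hg]; exact S.g_anti s m hk)
    have h2 := ih (fun x hx => hs x (Multiset.mem_cons_of_mem hx)) h1
    have h3 := S.h_full hk h1 (hs m (Multiset.mem_cons_self _ _))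
    rw [Multiset.map_cons, Multiset.sum_cons]
    omega

/-- the ranks are at least the multiplicities while the dimension is positive -/
lemma rank_ge (S : Sys d D h g a N) {s : Multiset ℕ} {m : ℕ} (hm : m ≤ d + 1)
    (hpos : 0 < h (m ::ₘ s)) : h (m ::ₘ s) + m ≤ h s := by
  rw [S.h_sum s m hm]
  have h1 : ∀ k ∈ Finset.range m, 1 ≤ g k s := by
    intro k hk
    rw [Finset.mem_range] at hk
    by_contra hcon
    have h2 := S.h6 k (by omega) s (by omega)
    have h3 := S.h_anti s (by omega : k ≤ m) hm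
    omega
  have h2 := Finset.sum_le_sum h1
  rw [Finset.sum_const, Finset.card_range, smul_eq_mul, mul_one] at h2
  omega

lemma N_sub (S : Sys d D h g a N) {m M : ℕ} (h : m ≤ M) : N m + (M - m) ≤ N M := by
  obtain ⟨j, rfl⟩ := Nat.exists_eq_add_of_le h
  clear h
  induction j with
  | zero => simp
  | succ j ih =>
    rw [← Nat.add_assoc, S.Ns]
    have := S.apos (m + j)
    omega

lemma le_N (S : Sys d D h g a N) (M : ℕ) : M ≤ N M := by
  have := S.N_sub (Nat.zero_le M)
  rw [S.N0] at this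
  omega

lemma upper_aux (S : Sys d D h g a N) {k : ℕ} (hk : k ≤ d) : ∀ l : List ℕ,
    l.Pairwise (· ≥ ·) → (∀ m ∈ l, m ≤ k + 1) → 0 < g k (l : Multiset ℕ) →
    g k (l : Multiset ℕ) = a k ∨ ∃ i : ℕ, g k (l : Multiset ℕ) + 1 + i ≤ a k ∧
      ((l : Multiset ℕ).map N).sum + h (l : Multiset ℕ) ≤ D + i * (N (k + 1) - (k + 1)) := by
  intro l
  induction l with
  | nil =>
    intro _ _ _
    rcases (S.h2 k hk 0).eq_or_lt with h1 | h1
    · exact Or.inl h1
    · refine Or.inr ⟨0, h1, ?_⟩
      rw [Multiset.coe_nil, S.h7]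
      simp
  | cons m l ih =>
    intro hp hle hpos
    rw [List.pairwise_cons] at hp
    have hl : ∀ x ∈ l, x ≤ k + 1 := fun x hx => hle x (List.mem_cons_of_mem _ hx)
    have hm : m ≤ k + 1 := hle m List.mem_cons_self
    rw [← Multiset.cons_coe] at hpos ⊢
    have h1 := S.g_anti (l : Multiset ℕ) m hk
    have hpos' : 0 < h (m ::ₘ (l : Multiset ℕ)) := hpos.trans_le (S.g_le _ hk)
    rcases ih hp.2 hl (by omega) with h2 | ⟨i, h2, h3⟩
    · rcases (S.h2 k hk (m ::ₘ (l : Multiset ℕ))).eq_or_lt with h4 | h4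
      · exact Or.inl h4
      · refine Or.inr ⟨0, by omega, ?_⟩
        have h5 := S.chain_full hk (l : Multiset ℕ) (fun x hx => hl x hx) h2
        have h6 := S.h_full hk h2 hm
        rw [Multiset.map_cons, Multiset.sum_cons]
        omega
    · refine Or.inr ⟨i + 1, ?_, ?_⟩
      · have h4 := S.drop (M := m) (fun x hx => hp.1 x hx) hk (by omega : 0 < g k (l : Multiset ℕ))
          (by omega)
        omega
      · have h4 := S.rank_ge (by omega : m ≤ d + 1) hpos'
        have h5 := S.N_sub hm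
        have h6 := S.le_N m
        rw [Multiset.map_cons, Multiset.sum_cons, Nat.add_mul, Nat.one_mul]
        omega

/-- no forms if the expected dimension is very negative -/
theorem upper (S : Sys d D h g a N) {k : ℕ} (hk : k ≤ d) {s : Multiset ℕ}
    (hs : ∀ m ∈ s, m ≤ k + 1) (hpos : 0 < h ((k + 1) ::ₘ s)) :
    (((k + 1) ::ₘ s).map N).sum + h ((k + 1) ::ₘ s) ≤
      D + (a k - 1) * (N (k + 1) - (k + 1)) := by
  have hg : 0 < g k s := by
    by_contra hcon
    have h2 := S.h6 k hk s (by omega)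
    have h3 := S.h_anti s (by omega : k ≤ k + 1) (by omega)
    omega
  have hsort : ((s.sort (· ≥ ·) : List ℕ) : Multiset ℕ) = s := Multiset.sort_eq _ _
  have h1 := S.upper_aux hk (s.sort (· ≥ ·)) (Multiset.pairwise_sort _ _)
    (fun m hm => hs m (by rwa [← hsort]))
  rw [hsort] at h1
  rw [Multiset.map_cons, Multiset.sum_cons]
  rcases h1 hg with h2 | ⟨i, h2, h3⟩
  · have h5 := S.chain_full hk s hs h2
    have h6 := S.h_full hk h2 le_rfl
    omega
  · have h4 := S.rank_ge (by omega : k + 1 ≤ d + 1) hpos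
    have h6 := S.le_N (k + 1)
    have h7 : (i + 1) * (N (k + 1) - (k + 1)) ≤ (a k - 1) * (N (k + 1) - (k + 1)) :=
      Nat.mul_le_mul_right _ (by omega)
    rw [Nat.add_mul, Nat.one_mul] at h7
    omega

/-- the dimension is bounded if the conditions are dependent -/
theorem middle (S : Sys d D h g a N) {k : ℕ} (hk : k ≤ d) {s : Multiset ℕ}
    (hs : ∀ m ∈ s, m ≤ k + 1) :
    h ((k + 1) ::ₘ s) + (((k + 1) ::ₘ s).map N).sum = D ∨
      2 * (h ((k + 1) ::ₘ s) : ℤ) ≤ 2 * (a k - 1) * N k + (a k - 1) * (a k - 2) := by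
  have hs' : ∀ m ∈ (k + 1) ::ₘ s, m ≤ k + 1 := by
    intro m hm
    rw [Multiset.mem_cons] at hm
    rcases hm with rfl | hm
    · exact le_rfl
    · exact hs m hm
  rcases (S.h2 k hk s).eq_or_lt with h1 | h1
  · left
    have h5 := S.chain_full hk s hs h1
    have h6 := S.h_full hk h1 le_rfl
    rw [Multiset.map_cons, Multiset.sum_cons]
    omega
  · have ha := S.apos k
    rcases Nat.lt_or_ge (a k) 2 with h2 | h2
    · -- `a k = 1`
      have ha1 : a k = 1 := by omega
      have h3 := S.lower (M := k + 1) (by omega) (by omega) ((k + 1) ::ₘ s) hs'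
      rw [Nat.add_sub_cancel, ha1] at h3
      by_cases hpos : 0 < h ((k + 1) ::ₘ s)
      · have h4 := S.upper hk hs hpos
        rw [ha1] at h4
        left
        apply h3
        simp only [Nat.sub_self, zero_mul, add_zero] at h4
        have h5 : ((((k + 1) ::ₘ s).map N).sum : ℤ) + h ((k + 1) ::ₘ s) ≤ D := by
          exact_mod_cast h4
        have h6 : (0 : ℤ) ≤ h ((k + 1) ::ₘ s) := Nat.cast_nonneg _
        push_cast
        push_cast at h5
        linarith
      · right
        have : h ((k + 1) ::ₘ s) = 0 := by omega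
        rw [this, ha1]
        simp
    · right
      have h3 : g k ((k + 1) ::ₘ s) ≤ a k - 2 := by
        rcases Nat.eq_zero_or_pos (g k s) with h4 | h4
        · have := S.g_anti s (k + 1) hk
          omega
        · have := S.drop hs hk h4 h1
          omega
      have h4 := S.bound (by omega : k + 1 ≤ d + 1) (by omega : k < k + 1) (a k - 2) _ hs' h3
        (by omega)
      have h5 : (N (k + 1) : ℤ) = N k + a k := by exact_mod_cast S.Ns k
      have h6 : ((a k - 2 : ℕ) : ℤ) = a k - 2 := by omega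
      rw [h5, h6] at h4
      nlinarith

/-- the rank is at least `k` plus the number of the leading forms of degree `k` -/
lemma rank_ge' (S : Sys d D h g a N) {s : Multiset ℕ} {k : ℕ} (hk : k ≤ d)
    (hpos : 0 < h ((k + 1) ::ₘ s)) : h ((k + 1) ::ₘ s) + k + g k s ≤ h s := by
  have h1 := S.h1 k hk s
  have h2 := S.rank_ge (m := k) (by omega) (s := s) (by omega)
  omega

lemma rep_le (k r : ℕ) : ∀ m ∈ Multiset.replicate r (k + 1), m ≤ k + 1 := by
  intro m hm
  rw [Multiset.eq_of_mem_replicate hm]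

lemma rep_succ (k r : ℕ) : Multiset.replicate (r + 1) (k + 1) =
    (k + 1) ::ₘ Multiset.replicate r (k + 1) := Multiset.replicate_succ _ _

lemma rep_sum (N : ℕ → ℕ) (k r : ℕ) :
    ((Multiset.replicate r (k + 1)).map N).sum = r * N (k + 1) := by
  rw [Multiset.map_replicate, Multiset.sum_replicate, smul_eq_mul]

lemma exists_first (S : Sys d D h g a N) {k : ℕ} (hk : k ≤ d) :
    ∃ r₀ : ℕ, (∀ r < r₀, g k (Multiset.replicate r (k + 1)) = a k) ∧
      g k (Multiset.replicate r₀ (k + 1)) < a k := by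
  classical
  have hex : ∃ r, g k (Multiset.replicate r (k + 1)) < a k := by
    by_contra hcon
    push Not at hcon
    have h1 : g k (Multiset.replicate (D + 1) (k + 1)) = a k :=
      le_antisymm (S.h2 k hk _) (hcon _)
    have h2 := S.chain_full hk _ (rep_le k (D + 1)) h1
    rw [rep_sum] at h2
    have h3 := S.le_N (k + 1)
    nlinarith
  refine ⟨Nat.find hex, fun r hr => ?_, Nat.find_spec hex⟩
  have := Nat.find_min hex hr
  exact le_antisymm (S.h2 k hk _) (by omega)

lemma rep_anti (S : Sys d D h g a N) {k : ℕ} (hk : k ≤ d) {r r' : ℕ} (hr : r ≤ r') :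
    h (Multiset.replicate r' (k + 1)) ≤ h (Multiset.replicate r (k + 1)) := by
  obtain ⟨j, rfl⟩ := Nat.exists_eq_add_of_le hr
  clear hr
  induction j with
  | zero => exact le_rfl
  | succ j ih =>
    rw [← Nat.add_assoc, rep_succ]
    exact (S.h_le _ (by omega)).trans ih

lemma after (S : Sys d D h g a N) {k r₀ : ℕ} (hk : k ≤ d)
    (hr₀ : g k (Multiset.replicate r₀ (k + 1)) < a k) (i : ℕ) :
    g k (Multiset.replicate (r₀ + i) (k + 1)) = 0 ∨
      (g k (Multiset.replicate (r₀ + i) (k + 1)) + 1 + i ≤ a k ∧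
      (0 < g k (Multiset.replicate (r₀ + i) (k + 1)) →
      2 * h (Multiset.replicate (r₀ + i) (k + 1)) + 2 * i * k + i * (i + 1) +
        2 * i * g k (Multiset.replicate (r₀ + i) (k + 1)) ≤
          2 * h (Multiset.replicate r₀ (k + 1)))) := by
  induction i with
  | zero =>
    right
    simp only [Nat.add_zero]
    refine ⟨by omega, fun _ => by simp⟩
  | succ i ih =>
    rw [← Nat.add_assoc, rep_succ]
    rcases Nat.eq_zero_or_pos (g k ((k + 1) ::ₘ Multiset.replicate (r₀ + i) (k + 1))) with h1 | h1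
    · exact Or.inl h1
    right
    have h2 := S.g_anti (Multiset.replicate (r₀ + i) (k + 1)) (k + 1) hk
    rcases ih with h3 | ⟨h3, h4⟩
    · omega
    have h5 := h4 (by omega)
    have h6 := S.drop (rep_le k (r₀ + i)) hk (by omega) (by omega)
    refine ⟨by omega, fun _ => ?_⟩
    have h7 : 0 < h ((k + 1) ::ₘ Multiset.replicate (r₀ + i) (k + 1)) :=
      h1.trans_le (S.g_le _ hk)
    have h8 := S.rank_ge' hk h7
    nlinarith

/-- the case of equal multiplicities -/
theorem homog (S : Sys d D h g a N) {k : ℕ} (hk : k ≤ d) :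
    ∃ r₀ : ℕ, (∀ r ≤ r₀, h (Multiset.replicate r (k + 1)) + r * N (k + 1) = D) ∧
      (∀ r, r₀ + a k ≤ r → h (Multiset.replicate r (k + 1)) = 0) ∧
      (∀ r, r₀ < r → 2 * (h (Multiset.replicate r (k + 1)) : ℤ) ≤
        2 * (a k - 1) * N k + (a k - 1) * (a k - 2)) := by
  obtain ⟨r₀, h1, h2⟩ := S.exists_first hk
  have ha := S.apos k
  refine ⟨r₀, ?_, ?_, ?_⟩
  · intro r hr
    rcases Nat.eq_zero_or_pos r with h0 | h0
    · subst h0
      rw [Multiset.replicate_zero, S.h7]
      omega
    · obtain ⟨q, rfl⟩ : ∃ q, r = q + 1 := ⟨r - 1, by omega⟩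
      have h3 := h1 q (by omega)
      have h5 := S.chain_full hk _ (rep_le k q) h3
      have h6 := S.h_full hk h3 (le_refl (k + 1))
      rw [rep_sum] at h5
      rw [rep_succ, Nat.add_mul]
      omega
  · intro r hr
    have h3 := S.after hk h2 (a k - 1)
    have h4 : g k (Multiset.replicate (r₀ + (a k - 1)) (k + 1)) = 0 := by
      rcases h3 with h3 | h3
      · exact h3
      · have := h3.1
        omega
    have h5 := S.h6 k hk _ h4
    have h6 := S.h_anti (Multiset.replicate (r₀ + (a k - 1)) (k + 1)) (by omega : k ≤ k + 1)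
      (by omega)
    rw [← rep_succ, show r₀ + (a k - 1) + 1 = r₀ + a k by omega] at h6
    have h7 := S.rep_anti hk hr
    omega
  · intro r hr
    have h3 := S.after hk h2 1
    have h4 : g k (Multiset.replicate (r₀ + 1) (k + 1)) + 2 ≤ a k ∨
      (g k (Multiset.replicate (r₀ + 1) (k + 1)) = 0 ∧ a k = 1) := by
      rcases h3 with h3 | h3
      · omega
      · have := h3.1
        omega
    have h7 := S.rep_anti hk (by omega : r₀ + 1 ≤ r)
    have h7' : (h (Multiset.replicate r (k + 1)) : ℤ) ≤ h (Multiset.replicate (r₀ + 1) (k + 1)) := by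
      exact_mod_cast h7
    rcases h4 with h4 | ⟨h4, h5⟩
    · have h8 := S.bound (by omega : k + 1 ≤ d + 1) (by omega : k < k + 1) (a k - 2) _
        (rep_le k (r₀ + 1)) (by omega) (by omega)
      have h9 : (N (k + 1) : ℤ) = N k + a k := by exact_mod_cast S.Ns k
      have h6 : ((a k - 2 : ℕ) : ℤ) = a k - 2 := by omega
      rw [h9, h6] at h8
      nlinarith
    · have h6 : h (Multiset.replicate (r₀ + 1) (k + 1)) = 0 := by
        have h8 : g k (Multiset.replicate r₀ (k + 1)) = 0 := by omega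
        have h9 := S.h6 k hk _ h8
        have h10 := S.h_anti (Multiset.replicate r₀ (k + 1)) (by omega : k ≤ k + 1)
          (by omega)
        rw [← rep_succ] at h10
        omega
      rw [h6] at h7'
      rw [h5]
      push_cast at h7' ⊢
      linarith

/-- the refined upper bound for equal multiplicities -/
theorem homog_upper (S : Sys d D h g a N) {k r : ℕ} (hk : k ≤ d)
    (hpos : 0 < h (Multiset.replicate r (k + 1))) :
    2 * ((r : ℤ) * N (k + 1) - D) + 2 ≤ 2 * (a k - 1) * (N (k + 1) - k) - a k * (a k - 1) := by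
  obtain ⟨r₀, h1, h2⟩ := S.exists_first hk
  have ha := S.apos k
  have haZ : (1 : ℤ) ≤ a k := by exact_mod_cast ha
  have hN : k + a k ≤ N (k + 1) := by
    rw [S.Ns]
    have := S.le_N k
    omega
  have hNZ : (k : ℤ) + a k ≤ N (k + 1) := by exact_mod_cast hN
  have hr₀ : h (Multiset.replicate r₀ (k + 1)) + r₀ * N (k + 1) = D := by
    rcases Nat.eq_zero_or_pos r₀ with h0 | h0
    · subst h0
      rw [Multiset.replicate_zero, S.h7]
      omega
    · obtain ⟨q, rfl⟩ : ∃ q, r₀ = q + 1 := ⟨r₀ - 1, by omega⟩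
      have h3 := h1 q (by omega)
      have h5 := S.chain_full hk _ (rep_le k q) h3
      have h6 := S.h_full hk h3 (le_refl (k + 1))
      rw [rep_sum] at h5
      rw [rep_succ, Nat.add_mul]
      omega
  have hr₀Z : (h (Multiset.replicate r₀ (k + 1)) : ℤ) + r₀ * N (k + 1) = D := by
    exact_mod_cast hr₀
  rcases Nat.lt_or_ge r₀ r with hr | hr
  · obtain ⟨i, rfl⟩ : ∃ i, r = r₀ + i + 1 := ⟨r - r₀ - 1, by omega⟩
    rw [rep_succ] at hpos
    have h3 := S.rank_ge' hk hpos
    have h4 : 0 < g k (Multiset.replicate (r₀ + i) (k + 1)) := by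
      by_contra hcon
      have h5 := S.h6 k hk _ (by omega : g k (Multiset.replicate (r₀ + i) (k + 1)) = 0)
      have h6 := S.h_anti (Multiset.replicate (r₀ + i) (k + 1)) (by omega : k ≤ k + 1)
        (by omega)
      omega
    rcases S.after hk h2 i with h5 | ⟨h5, h6⟩
    · omega
    have h7 := h6 h4
    have x1 : (h ((k + 1) ::ₘ Multiset.replicate (r₀ + i) (k + 1)) : ℤ) + k +
        g k (Multiset.replicate (r₀ + i) (k + 1)) ≤ h (Multiset.replicate (r₀ + i) (k + 1)) := by
      exact_mod_cast h3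
    have x2 : 2 * (h (Multiset.replicate (r₀ + i) (k + 1)) : ℤ) + 2 * i * k + i * (i + 1) +
        2 * i * g k (Multiset.replicate (r₀ + i) (k + 1)) ≤
          2 * h (Multiset.replicate r₀ (k + 1)) := by exact_mod_cast h7
    have x3 : (1 : ℤ) ≤ h ((k + 1) ::ₘ Multiset.replicate (r₀ + i) (k + 1)) := by
      exact_mod_cast hpos
    have x4 : (1 : ℤ) ≤ g k (Multiset.replicate (r₀ + i) (k + 1)) := by exact_mod_cast h4
    have x5 : (g k (Multiset.replicate (r₀ + i) (k + 1)) : ℤ) + 1 + i ≤ a k := by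
      exact_mod_cast h5
    have x6 : (0 : ℤ) ≤ i := Nat.cast_nonneg _
    have x7 : (i : ℤ) * 1 ≤ i * g k (Multiset.replicate (r₀ + i) (k + 1)) :=
      mul_le_mul_of_nonneg_left x4 x6
    push_cast
    -- the quadratic function is increasing
    have x8 : 0 ≤ ((a k : ℤ) - 1 - (i + 1)) * (2 * (N (k + 1) - k) - (a k + (i + 1))) := by
      refine mul_nonneg (by linarith) (by linarith)
    nlinarith
  · have h3 := S.rep_anti hk hr
    obtain ⟨j, hj⟩ := Nat.exists_eq_add_of_le hr
    have h4 : h (Multiset.replicate r (k + 1)) + r * N (k + 1) = D := by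
      rcases Nat.eq_zero_or_pos r with h0 | h0
      · subst h0
        rw [Multiset.replicate_zero, S.h7]
        omega
      · obtain ⟨q, rfl⟩ : ∃ q, r = q + 1 := ⟨r - 1, by omega⟩
        have h3 := h1 q (by omega)
        have h5 := S.chain_full hk _ (rep_le k q) h3
        have h6 := S.h_full hk h3 (le_refl (k + 1))
        rw [rep_sum] at h5
        rw [rep_succ, Nat.add_mul]
        omega
    have x1 : (h (Multiset.replicate r (k + 1)) : ℤ) + r * N (k + 1) = D := by exact_mod_cast h4
    have x2 : (1 : ℤ) ≤ h (Multiset.replicate r (k + 1)) := by exact_mod_cast hpos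
    nlinarith [mul_nonneg (by linarith : (0 : ℤ) ≤ a k - 1)
      (by linarith : (0 : ℤ) ≤ (N (k + 1) : ℤ) - k - a k)]

end Sys

end K4H38FP
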