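import Mathlib
import Pool.Agent.K4H38.FP.Core
import Pool.Agent.K4H38.FP.Seq
import Pool.Agent.H350R3.MG.PLem

/-!
The generic dimensions for the points of projective space, and the numbers for `n + 1` variables.
-/

set_option autoImplicit false
set_option linter.unusedSectionVars false

namespace K4H38FP

open MvPolynomial H350MG Module
open scoped LinearAlgebra.Projectivization
open Pool.Agent.H350R3.MG (primeIdeal primeIdeal_mk Generally generally_of_poly)

noncomputable section

lemma ak_fin {n : ℕ} (hn : 1 ≤ n) (k : ℕ) : ak (Fin (n + 1)) k = (n + k - 1).choose (n - 1) := by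
  unfold ak
  rw [Fintype.card_fin]
  rcases Nat.eq_zero_or_pos k with hk | hk
  · subst hk
    simp
  · obtain ⟨j, rfl⟩ : ∃ j, k = j + 1 := ⟨k - 1, by omega⟩
    rw [if_neg (Nat.succ_ne_zero j), Nat.add_sub_cancel]
    have e1 : n + 1 + (j + 1) - 1 = (n + j) + 1 := by omega
    have e2 : n + 1 + j - 1 = n + j := by omega
    have e3 : n + (j + 1) - 1 = n + j := by omega
    rw [e1, e2, e3, Nat.choose_succ_succ', Nat.add_sub_cancel_left]
    have : n + j - (n - 1) = j + 1 := by omega
    rw [← this]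
    exact Nat.choose_symm (by omega)

/-- the number of the conditions of a point of multiplicity `m` -/
def nc (n m : ℕ) : ℕ := (n + m - 1).choose n

lemma nc_zero {n : ℕ} (hn : 1 ≤ n) : nc n 0 = 0 := by
  unfold nc
  exact Nat.choose_eq_zero_of_lt (by omega)

lemma nc_succ {n : ℕ} (hn : 1 ≤ n) (k : ℕ) :
    nc n (k + 1) = nc n k + ak (Fin (n + 1)) k := by
  rw [ak_fin hn]
  unfold nc
  obtain ⟨q, rfl⟩ : ∃ q, n = q + 1 := ⟨n - 1, by omega⟩
  have e1 : q + 1 + (k + 1) - 1 = (q + k) + 1 := by omega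
  have e2 : q + 1 + k - 1 = q + k := by omega
  rw [e1, e2, Nat.add_sub_cancel, Nat.choose_succ_succ']
  omega

lemma ak_mono {n : ℕ} (hn : 1 ≤ n) : Monotone (ak (Fin (n + 1))) := by
  intro k k' h
  rw [ak_fin hn, ak_fin hn]
  exact Nat.choose_le_choose _ (by omega)

lemma ak_pos {n : ℕ} (hn : 1 ≤ n) (k : ℕ) : 1 ≤ ak (Fin (n + 1)) k := by
  rw [ak_fin hn]
  exact Nat.choose_pos (by omega)

theorem sys {n : ℕ} (hn : 1 ≤ n) (d : ℕ) :
    Sys d ((n + d).choose n) (hv ℂ (Fin (n + 1)) d) (gk ℂ (Fin (n + 1)) d)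
      (ak (Fin (n + 1))) (nc n) := by
  haveI : Nontrivial (Fin (n + 1)) := Fin.nontrivial_iff_two_le.2 (by omega)
  exact {
    N0 := nc_zero hn
    Ns := nc_succ hn
    amono := ak_mono hn
    apos := ak_pos hn
    h0 := hv_zero d
    h1 := fun k hk s => hv_gk hk s
    h2 := fun k hk s => gk_le hk s
    h3 := fun k hk m m' hm s => gk_anti hk hm s
    g0 := fun k s => gk_zero d k s
    h4 := fun k hk s h => gk_full hk h
    h5 := fun k hk s h h' => gk_drop hk h h'
    h6 := fun k hk s h => hv_of_gk (d - k) k (by omega) h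
    h7 := by
      rw [hv_empty, Fintype.card_fin, show n + 1 + d - 1 = n + d by omega]
      exact (Nat.choose_symm_add).symm }

lemma exists_lift' {α : Type} [DecidableEq α] {V : Type} [Inhabited V] (A : Finset α) (m : α → ℕ) :
    ∀ c : Multiset (V × ℕ), c.map Prod.snd = A.val.map m →
      ∃ f : α → V, (A.val.map fun a => (f a, m a)) = c := by
  classical
  induction A using Finset.induction_on with
  | empty =>
    intro c hc
    refine ⟨fun _ => default, ?_⟩
    have : c = 0 := by simpa using hc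
    rw [this]
    rfl
  | insert a A ha ih =>
    intro c hc
    rw [Finset.insert_val_of_notMem ha, Multiset.map_cons] at hc
    have hmem : m a ∈ c.map Prod.snd := by rw [hc]; exact Multiset.mem_cons_self _ _
    obtain ⟨x, hx, hxa⟩ := Multiset.mem_map.1 hmem
    obtain ⟨c', rfl⟩ := Multiset.exists_cons_of_mem hx
    rw [Multiset.map_cons, hxa, Multiset.cons_inj_right] at hc
    obtain ⟨f, hf⟩ := ih c' hc
    refine ⟨Function.update f a x.1, ?_⟩
    rw [Finset.insert_val_of_notMem ha, Multiset.map_cons, Function.update_self]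
    have h1 : (A.val.map fun b => (Function.update f a x.1 b, m b)) =
        A.val.map fun b => (f b, m b) := by
      refine Multiset.map_congr rfl fun b hb => ?_
      rw [Function.update_of_ne]
      rintro rfl
      exact ha hb
    rw [h1, hf, ← hxa]

lemma K_ptList {σ : Type} [Fintype σ] [DecidableEq σ] {r : ℕ} (w : Fin r → ℕ) (d : ℕ)
    (P : Fin r × σ → ℂ) : H350MG.K (ptList (fun i => d + 1 - w i) P) d =
      KS d ((Finset.univ : Finset (Fin r)).val.map fun i => ((fun j => P (i, j)), w i)) := by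
  ext F
  rw [mem_K, mem_KS]
  refine and_congr_right fun _ => ⟨?_, ?_⟩
  · intro h c hc
    obtain ⟨i, _, rfl⟩ := Multiset.mem_map.1 hc
    exact h _ (mem_ptList (e := fun i => d + 1 - w i) P i)
  · intro h c hc
    obtain ⟨i, rfl⟩ := exists_of_mem_ptList hc
    exact h _ (Multiset.mem_map.2 ⟨i, Finset.mem_univ i, rfl⟩)

lemma gen_fin {n r : ℕ} (w : Fin r → ℕ) (d : ℕ) :
    ∃ Φ : MvPolynomial (Fin r × Fin (n + 1)) ℂ, Φ ≠ 0 ∧ ∀ P, eval P Φ ≠ 0 →
      finrank ℂ (KS d ((Finset.univ : Finset (Fin r)).val.map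
        fun i => ((fun j : Fin (n + 1) => P (i, j)), w i))) =
          hv ℂ (Fin (n + 1)) d ((Finset.univ : Finset (Fin r)).val.map w) := by
  obtain ⟨c, hc, hc2⟩ := hv_spec (K := ℂ) (σ := Fin (n + 1)) d
    ((Finset.univ : Finset (Fin r)).val.map w)
  obtain ⟨f, hf⟩ := exists_lift' Finset.univ w c hc
  obtain ⟨Φ, h0, hΦ⟩ := generic_K (𝕜 := ℂ) (σ := Fin (n + 1)) (fun i => d + 1 - w i) d
    (fun x => f x.1 x.2)
  refine ⟨Φ, h0, fun P hP => le_antisymm ?_ ?_⟩
  · have h1 := hΦ P hP
    rw [K_ptList, K_ptList] at h1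
    refine h1.trans ?_
    rw [← hc2, ← hf]
  · refine hv_le _ ?_
    rw [Multiset.map_map]
    rfl

/-- the forms of degree `d` in the ideal of the fat points -/
lemma forms_mk' {n r d : ℕ} (w : Fin r → ℕ) (v : Fin r → Fin (n + 1) → ℂ) (hv : ∀ i, v i ≠ 0) :
    (homogeneousSubmodule (Fin (n + 1)) ℂ d ⊓ Submodule.restrictScalars ℂ
      (⨅ i, primeIdeal (Projectivization.mk ℂ (v i) (hv i)) ^ w i) :
        Submodule ℂ (MvPolynomial (Fin (n + 1)) ℂ)) =
      KS d ((Finset.univ : Finset (Fin r)).val.map fun i => (v i, w i)) := by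
  ext F
  rw [Submodule.mem_inf, Submodule.restrictScalars_mem, Submodule.mem_iInf, mem_KS]
  refine and_congr_right fun hF => ?_
  have key : ∀ i, F ∈ primeIdeal (Projectivization.mk ℂ (v i) (hv i)) ^ w i ↔
      (D (v i) ^ (d + 1 - w i)) F = 0 := by
    intro i
    rw [primeIdeal_mk]
    by_cases hw : w i ≤ d + 1
    · exact mem_pow_iff (hv i) hw hF
    · have h1 : d + 1 - w i = 0 := by omega
      rw [h1, pow_zero]
      constructor
      · intro h
        exact eq_zero_of_mem_pow (by omega : d < w i) h hF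
      · intro h
        have : F = 0 := h
        rw [this]
        exact Ideal.zero_mem _
  constructor
  · intro h c hc
    obtain ⟨i, _, rfl⟩ := Multiset.mem_map.1 hc
    exact (key i).1 (h i)
  · intro h i
    exact (key i).2 (h _ (Multiset.mem_map.2 ⟨i, Finset.mem_univ i, rfl⟩))

theorem generally_dim {n r : ℕ} (w : Fin r → ℕ) (d : ℕ) :
    Generally (fun P : Fin r → ℙ ℂ (Fin (n + 1) → ℂ) =>
      finrank ℂ (homogeneousSubmodule (Fin (n + 1)) ℂ d ⊓ Submodule.restrictScalars ℂ
        (⨅ i, primeIdeal (P i) ^ w i) : Submodule ℂ (MvPolynomial (Fin (n + 1)) ℂ)) =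
          hv ℂ (Fin (n + 1)) d ((Finset.univ : Finset (Fin r)).val.map w)) := by
  obtain ⟨Φ, h0, hΦ⟩ := gen_fin (n := n) w d
  refine generally_of_poly Φ h0 fun v hv hv2 => ?_
  rw [forms_mk' w v hv]
  exact hΦ _ hv2

end

end K4H38FP
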